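import Mathlib
import Pool.Agent.NilGeo.Len

set_option autoImplicit false

/-!
# Package MG9: Schreier rewriting and undistortedness

* `schreierM`: `T` a finite set; there is `D` such that for every `z ∈ H` with a word `w`,
  `V w = z`, all of whose prefixes `p` satisfy `V p * r⁻¹ ∈ H` for some `r ∈ T`, there is a list `l` of
  `|w| + 1` elements of `H` of length `≤ D` with product `z`. Adapt the proof of `schreier` in
  `Pool/Agent/NilGeo/LowA.lean`: let `D₁` bound the lengths of the elements of `T`; claim for the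
  prefixes `p` of `w`: there are a list `l` of `|p|` elements of `H` of length `≤ 2 D₁ + 1` and
  `r` (either `r = 1` if `p = []`, or `r ∈ T`), `len r ≤ D₁`, with `V p = l.prod * r`. For the step
  `p ++ [a]` take `r' ∈ T` with `V (p ++ [a]) r'⁻¹ ∈ H`; `h = r (v a) r'⁻¹ = l.prod⁻¹ V (p ++ [a]) r'⁻¹`
  is in `H`. At the end append the last `r = l.prod⁻¹ z ∈ H`.
* `len_sub_ge`: there is `C` with `len v' ⟨z, hz⟩ ≤ C * (len v z + 1)` for all `z ∈ H`, if every
  `z ∈ H` has a word `w` as in `schreierM` with `|w| = len v z`: by `schreierM`,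
  `z = l.prod` with `|l| = len v z + 1` and factors in the set
  `{x : ↥H | len v (x : G) ≤ D}`, which is finite (`ball_finite`, injectivity of the coercion), so
  `len v'` is bounded by some `C` on it; `len v' (l'.prod) ≤ C |l'|` for the corresponding list `l'`
  in `↥H` (`List.pmap` / induction; `len_mul_le` for `v'`).
-/

namespace Pool.Agent.MorseGeo

open Pool.Agent.NilGeo

variable {G : Type*} [Group G] {α : Type*}

theorem schreierM (v : α → G) (hsym : ∀ a, ∃ b, v b = (v a)⁻¹)
    (hsurj : ∀ g, ∃ w, val v w = g) (H : Subgroup G) (T : Finset G) :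
    ∃ D : ℕ, ∀ z ∈ H, ∀ w : List α, val v w = z →
      (∀ p s : List α, p ++ s = w → ∃ r ∈ T, val v p * r⁻¹ ∈ H) →
      ∃ l : List G, l.length = w.length + 1 ∧ l.prod = z ∧ ∀ x ∈ l, x ∈ H ∧ len v x ≤ D := by
  refine ⟨2 * T.sup (len v) + 1, fun z hz w hw hT => ?_⟩
  have hTD : ∀ r ∈ T, len v r ≤ T.sup (len v) := fun r hr => Finset.le_sup (f := len v) hr
  have hclaim : ∀ p : List α, (∃ s, p ++ s = w) → ∃ l : List G, ∃ r : G, l.length = p.length ∧
      len v r ≤ T.sup (len v) ∧ val v p = l.prod * r ∧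
      ∀ x ∈ l, x ∈ H ∧ len v x ≤ 2 * T.sup (len v) + 1 := by
    intro p
    induction p using List.reverseRecOn with
    | nil => exact fun _ => ⟨[], 1, rfl, by rw [len_one]; exact Nat.zero_le _, by simp, by simp⟩
    | append_singleton p a ih =>
      rintro ⟨s, hs⟩
      obtain ⟨l, r, hl, hr, hval, hx⟩ := ih ⟨a :: s, by rw [← hs]; simp⟩
      obtain ⟨r', hr', hH⟩ := hT (p ++ [a]) s hs
      have hlH : l.prod ∈ H := Subgroup.list_prod_mem H fun x hx' => (hx x hx').1
      have hH' : r * v a * r'⁻¹ ∈ H := by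
        have h1 : r * v a * r'⁻¹ = l.prod⁻¹ * (val v (p ++ [a]) * r'⁻¹) := by
          rw [val_append, hval, val_singleton]
          group
        rw [h1]
        exact H.mul_mem (H.inv_mem hlH) hH
      refine ⟨l ++ [r * v a * r'⁻¹], r', ?_, hTD r' hr', ?_, ?_⟩
      · simp [hl]
      · rw [val_append, hval, val_singleton, List.prod_append, List.prod_singleton]
        group
      · intro x hxl
        rcases List.mem_append.1 hxl with h | h
        · exact hx x h
        · rw [List.mem_singleton.1 h]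
          refine ⟨hH', ?_⟩
          have h1 := len_mul_le v hsurj (r * v a) r'⁻¹
          have h2 := len_mul_le v hsurj r (v a)
          have h3 := len_letter v a
          have h4 := len_inv_le v hsym hsurj r'
          have h5 := hTD r' hr'
          omega
  obtain ⟨l, r, hl, hr, hval, hx⟩ := hclaim w ⟨[], List.append_nil w⟩
  have hlH : l.prod ∈ H := Subgroup.list_prod_mem H fun x hx' => (hx x hx').1
  have hzr : z = l.prod * r := hw.symm.trans hval
  have hrH : r ∈ H := by
    have h1 : r = l.prod⁻¹ * z := by rw [hzr]; group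
    rw [h1]
    exact H.mul_mem (H.inv_mem hlH) hz
  refine ⟨l ++ [r], ?_, ?_, ?_⟩
  · simp [hl]
  · rw [List.prod_append, List.prod_singleton, hzr]
  · intro x hxl
    rcases List.mem_append.1 hxl with h | h
    · exact hx x h
    · rw [List.mem_singleton.1 h]
      exact ⟨hrH, by omega⟩

theorem len_sub_ge {β : Type*} [Finite α] (v : α → G) (hsym : ∀ a, ∃ b, v b = (v a)⁻¹)
    (hsurj : ∀ g, ∃ w, val v w = g) (H : Subgroup G) (T : Finset G)
    (hTz : ∀ z ∈ H, ∃ w : List α, val v w = z ∧ w.length = len v z ∧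
      ∀ p s : List α, p ++ s = w → ∃ r ∈ T, val v p * r⁻¹ ∈ H)
    (v' : β → ↥H) (hsurj' : ∀ g, ∃ w, val v' w = g) :
    ∃ C : ℕ, ∀ h : ↥H, len v' h ≤ C * (len v (h : G) + 1) := by
  obtain ⟨D, hD⟩ := schreierM v hsym hsurj H T
  have hfin : {x : ↥H | len v (x : G) ≤ D}.Finite :=
    (ball_finite v hsurj D).preimage Subtype.coe_injective.injOn
  obtain ⟨C, hC⟩ := (hfin.image (len v')).bddAbove
  have hC' : ∀ x : ↥H, len v (x : G) ≤ D → len v' x ≤ C := fun x hx =>
    hC (Set.mem_image_of_mem (len v') hx)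
  have hlist : ∀ l : List G, (∀ x ∈ l, x ∈ H ∧ len v x ≤ D) → ∀ h : ↥H, (h : G) = l.prod →
      len v' h ≤ C * l.length := by
    intro l
    induction l with
    | nil =>
      intro _ h hh
      have h1 : h = 1 := Subtype.ext (by rw [hh, List.prod_nil]; rfl)
      rw [h1, len_one]
      exact Nat.zero_le _
    | cons x l ih =>
      intro hx h hh
      have hxH := hx x List.mem_cons_self
      have hx' : ∀ y ∈ l, y ∈ H ∧ len v y ≤ D := fun y hy => hx y (List.mem_cons_of_mem _ hy)
      have hlH : l.prod ∈ H := Subgroup.list_prod_mem H fun y hy => (hx' y hy).1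
      have h1 : h = ⟨x, hxH.1⟩ * ⟨l.prod, hlH⟩ :=
        Subtype.ext (by rw [hh, List.prod_cons]; rfl)
      have h2 := len_mul_le v' hsurj' ⟨x, hxH.1⟩ ⟨l.prod, hlH⟩
      have h3 := hC' ⟨x, hxH.1⟩ hxH.2
      have h4 := ih hx' ⟨l.prod, hlH⟩ rfl
      rw [h1, List.length_cons, Nat.mul_succ]
      omega
  refine ⟨C, fun h => ?_⟩
  obtain ⟨w, hw, hwl, hT⟩ := hTz h h.2
  obtain ⟨l, hl, hlz, hx⟩ := hD h h.2 w hw hT
  have h1 := hlist l hx h hlz.symm
  rwa [hl, hwl] at h1

end Pool.Agent.MorseGeo
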