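import Mathlib
import Pool.Agent.NilGeo.Len

set_option autoImplicit false

/-!
# Package MG8: the word length of a finitely generated subgroup

* `gens`: for a finitely generated subgroup `H` there are `n` and `v' : Fin n → ↥H`, symmetric and
  generating in the sense of `hsym`, `hsurj`. Proof: `H.FG` gives a finite set `F` with closure `H`
  (or `Group.FG ↥H` by `Group.fg_iff_subgroup_fg`/`Subgroup.fg_iff...`, then a finite
  `F' : Finset ↥H` with closure `⊤`); the type `{x // x ∈ F'} × Bool` is finite, hence equivalent to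
  `Fin n` (`Finite.exists_equiv_fin`), with the letter `(x, true) ↦ x`, `(x, false) ↦ x⁻¹`. `hsym`:
  flip the `Bool`. `hsurj`: `Subgroup.closure_induction` (as in the file
  `Pool/Agent/Results/MP_69f220_al/VirtNilpotent.lean`: generators, `1`, products, inverses of words).
* `len_sub_le`: `len v (h : G) ≤ C * len v' h` for `h ∈ H`, `C` the maximum of
  `len v (v' b)` over the finite type of letters `b` (`Finite.exists_le` or `Finset.sup`); take a
  word `w'` with `val v' w' = h`, `|w'| = len v' h` (`len_exists`) and show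
  `len v (val v' w' : G) ≤ C * |w'|` by induction on `w'` (`val_cons`, `len_mul_le`, `len_one`).
-/

namespace Pool.Agent.MorseGeo

open Pool.Agent.NilGeo

variable {G : Type*} [Group G] {α : Type*}

theorem gens (H : Subgroup G) (hfg : H.FG) :
    ∃ (n : ℕ) (v' : Fin n → ↥H), (∀ a, ∃ b, v' b = (v' a)⁻¹) ∧ (∀ g, ∃ w, val v' w = g) := by
  obtain ⟨S, hS, hfin⟩ := Group.fg_iff.1 ((Group.fg_iff_subgroup_fg H).2 hfg)
  have _ : Finite S := hfin
  obtain ⟨n, ⟨e⟩⟩ := Finite.exists_equiv_fin (S × Bool)
  let f : S × Bool → ↥H := fun p => if p.2 then (p.1 : ↥H) else (p.1 : ↥H)⁻¹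
  have hsym : ∀ a : Fin n, ∃ b : Fin n, f (e.symm b) = (f (e.symm a))⁻¹ := by
    intro a
    refine ⟨e ((e.symm a).1, !(e.symm a).2), ?_⟩
    rw [Equiv.symm_apply_apply]
    rcases h : e.symm a with ⟨x, b⟩
    cases b <;> simp [f]
  refine ⟨n, fun a => f (e.symm a), hsym, fun g => ?_⟩
  have hinv : ∀ w : List (Fin n), ∃ w' : List (Fin n),
      val (fun a => f (e.symm a)) w' = (val (fun a => f (e.symm a)) w)⁻¹ := by
    intro w
    induction w with
    | nil => exact ⟨[], by simp⟩
    | cons a w ih =>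
      obtain ⟨w', h2⟩ := ih
      obtain ⟨b, hb⟩ := hsym a
      exact ⟨w' ++ [b], by rw [val_append, h2, val_singleton, hb, val_cons, mul_inv_rev]⟩
  have hg : g ∈ Subgroup.closure S := by
    rw [hS]
    trivial
  induction hg using Subgroup.closure_induction with
  | mem x hx =>
    refine ⟨[e (⟨x, hx⟩, true)], ?_⟩
    rw [val_singleton, Equiv.symm_apply_apply]
    rfl
  | one => exact ⟨[], rfl⟩
  | mul x y _ _ hx hy =>
    obtain ⟨w, rfl⟩ := hx
    obtain ⟨u, rfl⟩ := hy
    exact ⟨w ++ u, val_append _ _ _⟩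
  | inv x _ hx =>
    obtain ⟨w, rfl⟩ := hx
    exact hinv w

theorem len_sub_le {β : Type*} [Finite β] (v : α → G) (hsurj : ∀ g, ∃ w, val v w = g)
    (H : Subgroup G) (v' : β → ↥H) (hsurj' : ∀ g, ∃ w, val v' w = g) :
    ∃ C : ℕ, ∀ h : ↥H, len v (h : G) ≤ C * len v' h := by
  obtain ⟨C, hC⟩ := Finite.exists_le fun b => len v ((v' b : ↥H) : G)
  have key : ∀ w : List β, len v ((val v' w : ↥H) : G) ≤ C * w.length := by
    intro w
    induction w with
    | nil => rw [val_nil, Subgroup.coe_one, len_one]; exact Nat.zero_le _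
    | cons b w ih =>
      rw [val_cons, Subgroup.coe_mul, List.length_cons]
      have h1 := len_mul_le v hsurj ((v' b : ↥H) : G) ((val v' w : ↥H) : G)
      have h2 := hC b
      calc len v (((v' b : ↥H) : G) * ((val v' w : ↥H) : G)) ≤ C + C * w.length := by omega
        _ = C * (w.length + 1) := by ring
  refine ⟨C, fun h => ?_⟩
  obtain ⟨w, hw, hl⟩ := len_exists v' hsurj' h
  rw [← hl, ← hw]
  exact key w

end Pool.Agent.MorseGeo
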