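import Mathlib
import Pool.Agent.MorseGeo.Transp
import Pool.Agent.MorseGeo.Schreier
import Pool.Agent.NilGeo.UpA
import Pool.Agent.NilGeo.LowA
import Pool.Agent.NilGeo.FGLcs

set_option autoImplicit false

/-!
# Package MG10: upper and lower bounds for the lengths of the elements of `lcs k` (transport)

`H ≤ G` finitely generated, not necessarily normal, `H.lowerCentralSeries (k + 1) = ⊥`. Everything
follows from the normal case (`NilGeo.upper_A`, `NilGeo.lower_A`, `NilGeo.fg_lcs`) applied to the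
subgroup `⊤` of the group `↥H`, because
`((⊤ : Subgroup ↥H).lowerCentralSeries n).map H.subtype = H.lowerCentralSeries n`
(`Subgroup.top_subtype_lowerCentralSeries`); in particular, `x ∈ (⊤ : Subgroup ↥H).lcs n` iff
`(x : G) ∈ H.lcs n` (`Subgroup.mem_map_iff_mem` / injectivity of `H.subtype`), and
`(⊤ : Subgroup ↥H).lcs (k + 1) = ⊥` (`Subgroup.map_eq_bot_iff_of_injective`).

* `fg_lcsM`: `NilGeo.fg_lcs` for `⊤ : Subgroup ↥H` (`(⊤ : Subgroup ↥H).FG` from `H.FG`, e.g.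
  `Group.fg_def`, `Group.fg_iff_subgroup_fg`), then `Subgroup.FG.map` (or map the generators).
* `upperM`: take `n`, `v'` from `gens`, `C₀` from `len_sub_le`. Apply `NilGeo.upper_A` to `v'`,
  `⊤ : Subgroup ↥H`, `ι' x = ι (x : G)`, `y' i = ⟨y i, _⟩`, `T' = {τ : ↥H | (τ : G) ∈ T}` (finite:
  preimage of a finite set under an injective map). `hdec`: from `hdec` for `(z : G)`:
  `z = (List.ofFn …).prod * τ`, so `τ ∈ H` and the equation holds in `↥H` (`Subtype.ext`;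
  `SubmonoidClass.coe_list_prod`/`map_list_prod H.subtype`, `List.map_ofFn`). Then
  `(len v z)^(k+1) ≤ C₀^(k+1) (len v' z)^(k+1) ≤ C₀^(k+1) C (‖ι z‖ + 1)`.
* `lowerM`: `n`, `v'` from `gens`, `C₁` from `len_sub_ge`; `NilGeo.lower_A` for
  `⊤ : Subgroup ↥H` (`FiniteIndex` and `Normal` instances of `⊤`) gives
  `‖ι z‖ ≤ C (len v' z)^(k+1)`, `C ≥ 0` without loss of generality (`max C 0`). For `z = 1` the claim
  is `ι 1 = 0`. For `z ≠ 1`: `len v z ≥ 1` (`eq_one_of_len_eq_zero`), so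
  `len v' z ≤ C₁ (len v z + 1) ≤ 2 C₁ len v z`.
-/

namespace Pool.Agent.MorseGeo

open Pool.Agent.NilGeo

variable {G : Type*} [Group G] {α : Type*}

private theorem mem_lcs_iff (H : Subgroup G) (n : ℕ) (x : ↥H) :
    x ∈ (⊤ : Subgroup ↥H).lowerCentralSeries n ↔ (x : G) ∈ H.lowerCentralSeries n := by
  rw [← Subgroup.top_subtype_lowerCentralSeries H n, Subgroup.mem_map]
  constructor
  · intro hx
    exact ⟨x, hx, rfl⟩
  · rintro ⟨y, hy, hyx⟩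
    have h1 : y = x := Subtype.ext hyx
    rwa [← h1]

private theorem lcs_bot (H : Subgroup G) (n : ℕ) (h : H.lowerCentralSeries n = ⊥) :
    (⊤ : Subgroup ↥H).lowerCentralSeries n = ⊥ := by
  rw [Subgroup.eq_bot_iff_forall]
  intro x hx
  have h1 := (mem_lcs_iff H n x).1 hx
  rw [h, Subgroup.mem_bot] at h1
  exact Subtype.ext h1

private theorem lcs_le (H : Subgroup G) (n : ℕ) : H.lowerCentralSeries n ≤ H := by
  have h1 := H.lowerCentralSeries_antitone (Nat.zero_le n)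
  rwa [Subgroup.lowerCentralSeries_zero] at h1

theorem fg_lcsM (H : Subgroup G) (hfg : H.FG) (k : ℕ)
    (hk : H.lowerCentralSeries (k + 1) = ⊥) : (H.lowerCentralSeries k).FG := by
  have h1 : (⊤ : Subgroup ↥H).FG := Group.fg_def.1 ((Group.fg_iff_subgroup_fg H).2 hfg)
  classical
  obtain ⟨S, hS⟩ := fg_lcs (⊤ : Subgroup ↥H) h1 k (lcs_bot H _ hk)
  refine ⟨S.image H.subtype, ?_⟩
  rw [Finset.coe_image, ← MonoidHom.map_closure, hS, Subgroup.top_subtype_lowerCentralSeries]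

theorem upperM (v : α → G) (hsurj : ∀ g, ∃ w, val v w = g) (H : Subgroup G) (hfg : H.FG) (k : ℕ)
    (hk : H.lowerCentralSeries (k + 1) = ⊥) {r : ℕ} (ι : G → EuclideanSpace ℝ (Fin r))
    (y : Fin r → G) (T : Set G) (hy : ∀ i, y i ∈ H.lowerCentralSeries k) (hT : T.Finite)
    (hdec : ∀ z ∈ H.lowerCentralSeries k, ∃ m : Fin r → ℤ, ∃ τ ∈ T,
      z = (List.ofFn fun i => y i ^ m i).prod * τ ∧ ∀ i, |(m i : ℝ)| ≤ ‖ι z‖) :
    ∃ C : ℝ, ∀ z ∈ H.lowerCentralSeries k, (len v z : ℝ) ^ (k + 1) ≤ C * (‖ι z‖ + 1) := by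
  obtain ⟨n, v', hsym', hsurj'⟩ := gens H hfg
  obtain ⟨C₀, hC₀⟩ := len_sub_le v hsurj H v' hsurj'
  have hyH : ∀ i, y i ∈ H := fun i => lcs_le H k (hy i)
  obtain ⟨C, hC⟩ := upper_A v' hsym' hsurj' (⊤ : Subgroup ↥H) k (lcs_bot H _ hk)
    (fun x => ι (x : G)) (fun i => ⟨y i, hyH i⟩) {τ : ↥H | (τ : G) ∈ T}
    (fun i => (mem_lcs_iff H k _).2 (hy i)) (hT.preimage Subtype.val_injective.injOn) (by
      intro z hz
      obtain ⟨m, τ, hτ, h1, h2⟩ := hdec z ((mem_lcs_iff H k z).1 hz)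
      have h3 : (((List.ofFn fun i => (⟨y i, hyH i⟩ : ↥H) ^ m i).prod : ↥H) : G) =
          (List.ofFn fun i => y i ^ m i).prod := by
        change H.subtype _ = _
        rw [map_list_prod, List.map_ofFn]
        rfl
      rw [← h3] at h1
      have h4 : τ ∈ H := by
        have h5 : τ = ((((List.ofFn fun i => (⟨y i, hyH i⟩ : ↥H) ^ m i).prod)⁻¹ * z : ↥H) :
            G) := by
          rw [Subgroup.coe_mul, Subgroup.coe_inv, h1, inv_mul_cancel_left]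
        rw [h5]
        exact SetLike.coe_mem _
      exact ⟨m, ⟨τ, h4⟩, hτ, Subtype.ext h1, h2⟩)
  refine ⟨(C₀ : ℝ) ^ (k + 1) * C, fun z hz => ?_⟩
  have hzH := lcs_le H k hz
  have h1 := hC ⟨z, hzH⟩ ((mem_lcs_iff H k _).2 hz)
  have h2 : (len v z : ℝ) ≤ (C₀ : ℝ) * (len v' (⟨z, hzH⟩ : ↥H) : ℝ) := by
    exact_mod_cast hC₀ ⟨z, hzH⟩
  calc (len v z : ℝ) ^ (k + 1) ≤ ((C₀ : ℝ) * (len v' (⟨z, hzH⟩ : ↥H) : ℝ)) ^ (k + 1) :=
        pow_le_pow_left₀ (Nat.cast_nonneg _) h2 _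
    _ = (C₀ : ℝ) ^ (k + 1) * (len v' (⟨z, hzH⟩ : ↥H) : ℝ) ^ (k + 1) := mul_pow _ _ _
    _ ≤ (C₀ : ℝ) ^ (k + 1) * (C * (‖ι z‖ + 1)) := mul_le_mul_of_nonneg_left h1 (by positivity)
    _ = (C₀ : ℝ) ^ (k + 1) * C * (‖ι z‖ + 1) := by ring

theorem lowerM [Finite α] (v : α → G) (hsym : ∀ a, ∃ b, v b = (v a)⁻¹)
    (hsurj : ∀ g, ∃ w, val v w = g) (H : Subgroup G) (hfg : H.FG) (T : Finset G)
    (hTz : ∀ z ∈ H, ∃ w : List α, val v w = z ∧ w.length = len v z ∧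
      ∀ p s : List α, p ++ s = w → ∃ r ∈ T, val v p * r⁻¹ ∈ H) (k : ℕ)
    (hk : H.lowerCentralSeries (k + 1) = ⊥) {r : ℕ} (ι : G → EuclideanSpace ℝ (Fin r))
    (hι : ∀ a ∈ H.lowerCentralSeries k, ∀ b ∈ H.lowerCentralSeries k, ι (a * b) = ι a + ι b) :
    ∃ C : ℝ, ∀ z ∈ H.lowerCentralSeries k, ‖ι z‖ ≤ C * (len v z : ℝ) ^ (k + 1) := by
  obtain ⟨n, v', hsym', hsurj'⟩ := gens H hfg
  obtain ⟨C₁, hC₁⟩ := len_sub_ge v hsym hsurj H T hTz v' hsurj'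
  obtain ⟨C, hC⟩ := lower_A v' hsym' hsurj' (⊤ : Subgroup ↥H) k (lcs_bot H _ hk)
    (fun x => ι (x : G)) (fun a ha b hb => hι _ ((mem_lcs_iff H k a).1 ha) _
      ((mem_lcs_iff H k b).1 hb))
  have hι1 : ι 1 = 0 := by
    have h1 := hι 1 (one_mem _) 1 (one_mem _)
    rw [mul_one] at h1
    exact left_eq_add.1 h1
  refine ⟨max C 0 * (2 * (C₁ : ℝ)) ^ (k + 1), fun z hz => ?_⟩
  have hC0 : 0 ≤ max C 0 := le_max_right _ _
  by_cases hz1 : z = 1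
  · rw [hz1, hι1, norm_zero]
    positivity
  have hzH := lcs_le H k hz
  have h1 := hC ⟨z, hzH⟩ ((mem_lcs_iff H k _).2 hz)
  have h2 : (len v' (⟨z, hzH⟩ : ↥H) : ℝ) ≤ (C₁ : ℝ) * ((len v z : ℝ) + 1) := by
    exact_mod_cast hC₁ ⟨z, hzH⟩
  have h3 : (1 : ℝ) ≤ (len v z : ℝ) := by
    have h4 : len v z ≠ 0 := fun h => hz1 (eq_one_of_len_eq_zero v hsurj h)
    exact_mod_cast Nat.one_le_iff_ne_zero.2 h4
  have h5 : (len v' (⟨z, hzH⟩ : ↥H) : ℝ) ≤ 2 * (C₁ : ℝ) * (len v z : ℝ) := by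
    have h6 : (C₁ : ℝ) * ((len v z : ℝ) + 1) ≤ (C₁ : ℝ) * ((len v z : ℝ) + (len v z : ℝ)) :=
      mul_le_mul_of_nonneg_left (by linarith) (Nat.cast_nonneg _)
    calc (len v' (⟨z, hzH⟩ : ↥H) : ℝ) ≤ (C₁ : ℝ) * ((len v z : ℝ) + 1) := h2
      _ ≤ (C₁ : ℝ) * ((len v z : ℝ) + (len v z : ℝ)) := h6
      _ = 2 * (C₁ : ℝ) * (len v z : ℝ) := by ring
  calc ‖ι z‖ ≤ C * (len v' (⟨z, hzH⟩ : ↥H) : ℝ) ^ (k + 1) := h1
    _ ≤ max C 0 * (len v' (⟨z, hzH⟩ : ↥H) : ℝ) ^ (k + 1) :=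
        mul_le_mul_of_nonneg_right (le_max_left _ _) (by positivity)
    _ ≤ max C 0 * (2 * (C₁ : ℝ) * (len v z : ℝ)) ^ (k + 1) :=
        mul_le_mul_of_nonneg_left (pow_le_pow_left₀ (Nat.cast_nonneg _) h5 _) hC0
    _ = max C 0 * (2 * (C₁ : ℝ)) ^ (k + 1) * (len v z : ℝ) ^ (k + 1) := by
        rw [mul_pow, mul_assoc]

end Pool.Agent.MorseGeo
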