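import Mathlib
import Pool.Agent.NilGeo.Len

set_option autoImplicit false

/-!
# Package MG6: loop erasure with right cosets (adapt `Pool/Agent/NilGeo/Chunk.lean`)

As `NilGeo/Chunk.lean` (read its docstring and adapt its proof), but without normality of `H` in
`G`. `S ≤ G` is normalised by `H` (`hSH`). `T` is a finite set such that for every prefix `a` of
`s` the point `P V a` is in `H r` for some `r ∈ T`. `hgood`: for every prefix `a` of `s` and every
loop `u` of `M` at `M.eval a` with `|u| ≤ N` and `U = (P V a) (V u) (P V a)⁻¹ ∈ H`, one has `U ∈ S`.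
Then `P V s = k (P V s₀)` with `k ∈ S`, `|s₀| ≤ N`.

Proof: induction on the prefix `s'` of `s`: there are `s₀`, `k ∈ S`, `|s₀| ≤ N`,
`P V s' = k (P V s₀)`, and (*) every prefix `x` of `s₀` has a prefix `a` of `s` with
`M.eval x = M.eval a` and `P V x (P V a)⁻¹ ∈ H`; also for `x = s₀`, `a = s'`:
`M.eval s₀ = M.eval s'` and `P V s₀ (P V s')⁻¹ ∈ H`. The relation `st x a :=
M.eval x = M.eval a ∧ P V x (P V a)⁻¹ ∈ H` is preserved by appending the same word to `x` and `a`
(`P V (x ++ c) (P V (a ++ c))⁻¹ = P V x (P V a)⁻¹`). Step: `s₁ = s₀ ++ [l]`; if `|s₁| = N + 1`,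
choose
for each prefix `x` of `s₁` an `r ∈ T` with `P V x r⁻¹ ∈ H` (from the corresponding prefix `a` of
`s`);
there are more prefixes of lengths `0, …, N` than pairs `(state, r)`, so `s₁ = c ++ u ++ d`, `u ≠
[]`,
`|u| ≤ N`, `M.eval (c ++ u) = M.eval c`, and `P V (c ++ u)`, `P V c` in the same `H r`, so
`P V c V u (P V c)⁻¹ ∈ H`. With `a` for `c`: `P V c = h' P V a`, `h' ∈ H`, and
`(P V a) (V u) (P V a)⁻¹ = h'⁻¹ (P V c V u (P V c)⁻¹) h' ∈ H`, so by `hgood` it is in `S`, and
`P V c V u (P V c)⁻¹ ∈ S` by `hSH`. Replace `s₁` by `c ++ d`: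
`P V (c ++ u ++ d) = (P V c V u (P V c)⁻¹) P V (c ++ d)`, which also shows that the points of the
prefixes of `c ++ d` behind `c` only change by a left factor in `H`.
-/

namespace Pool.Agent.MorseGeo

open Pool.Agent.NilGeo

variable {G : Type*} [Group G] {α : Type*}

private def Rl {σ : Type*} (v : α → G) (M : DFA α σ) (H : Subgroup G) (P : G)
    (x a : List α) : Prop :=
  M.eval x = M.eval a ∧ P * val v x * (P * val v a)⁻¹ ∈ H

private theorem Rl.symm {σ : Type*} {v : α → G} {M : DFA α σ} {H : Subgroup G} {P : G}
    {x a : List α} (h : Rl v M H P x a) : Rl v M H P a x := by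
  refine ⟨h.1.symm, ?_⟩
  have h1 := H.inv_mem h.2
  rw [mul_inv_rev, inv_inv] at h1
  exact h1

private theorem Rl.trans {σ : Type*} {v : α → G} {M : DFA α σ} {H : Subgroup G} {P : G}
    {x a b : List α} (h : Rl v M H P x a) (h' : Rl v M H P a b) : Rl v M H P x b := by
  refine ⟨h.1.trans h'.1, ?_⟩
  have h1 := H.mul_mem h.2 h'.2
  rwa [← mul_assoc, inv_mul_cancel_right] at h1

private theorem Rl.append {σ : Type*} {v : α → G} {M : DFA α σ} {H : Subgroup G} {P : G}
    {x a : List α} (h : Rl v M H P x a) (z : List α) : Rl v M H P (x ++ z) (a ++ z) := by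
  refine ⟨?_, ?_⟩
  · have h1 : M.evalFrom (M.eval x) z = M.evalFrom (M.eval a) z := by rw [h.1]
    simpa [DFA.eval, DFA.evalFrom_of_append] using h1
  · have h1 : P * val v (x ++ z) * (P * val v (a ++ z))⁻¹ = P * val v x * (P * val v a)⁻¹ := by
      rw [val_append, val_append]
      group
    rw [h1]
    exact h.2

theorem chunkM {σ : Type*} [Fintype σ] (v : α → G) (M : DFA α σ)
    (H S : Subgroup G) (hSleH : S ≤ H)
    (hSH : ∀ h ∈ H, ∀ g ∈ S, h * g * h⁻¹ ∈ S) (T : Finset G) (N : ℕ)
    (hN : Fintype.card σ * T.card ≤ N) (P : G) (s : List α)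
    (hT : ∀ a b : List α, a ++ b = s → ∃ r ∈ T, P * val v a * r⁻¹ ∈ H)
    (hgood : ∀ a b : List α, a ++ b = s → ∀ u : List α, u.length ≤ N →
      M.evalFrom (M.eval a) u = M.eval a → (P * val v a) * val v u * (P * val v a)⁻¹ ∈ H →
      (P * val v a) * val v u * (P * val v a)⁻¹ ∈ S) :
    ∃ s₀ : List α, ∃ k ∈ S, s₀.length ≤ N ∧ P * val v s = k * (P * val v s₀) := by
  classical
  have main : ∀ s' r : List α, s' ++ r = s → ∃ s₀ : List α, ∃ k ∈ S, s₀.length ≤ N ∧
      P * val v s' = k * (P * val v s₀) ∧ Rl v M H P s₀ s' ∧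
      ∀ x y : List α, x ++ y = s₀ → ∃ a b : List α, a ++ b = s ∧ Rl v M H P x a := by
    intro s'
    induction s' using List.reverseRecOn with
    | nil =>
      intro r hr
      have h0 : Rl v M H P [] [] := ⟨rfl, by rw [mul_inv_cancel]; exact H.one_mem⟩
      refine ⟨[], 1, S.one_mem, Nat.zero_le _, by simp, h0, ?_⟩
      intro x y hxy
      have hx : x = [] := (List.append_eq_nil_iff.1 hxy).1
      exact ⟨[], s, rfl, by rw [hx]; exact h0⟩
    | append_singleton s'' l ih =>
      intro r hr
      obtain ⟨s₀, k, hk, hlen, hval, hst, hpre⟩ := ih (l :: r) (by rw [← hr]; simp)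
      have hst1 : Rl v M H P (s₀ ++ [l]) (s'' ++ [l]) := hst.append [l]
      have hval1 : P * val v (s'' ++ [l]) = k * (P * val v (s₀ ++ [l])) := by
        rw [val_append, val_append, ← mul_assoc, hval]
        group
      have hpre1 : ∀ x y : List α, x ++ y = s₀ ++ [l] →
          ∃ a b : List α, a ++ b = s ∧ Rl v M H P x a := by
        intro x y hxy
        rcases List.eq_nil_or_concat y with hy | ⟨y', l', hy⟩
        · subst hy
          rw [List.append_nil] at hxy
          exact ⟨s'' ++ [l], r, hr, by rw [hxy]; exact hst1⟩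
        · subst hy
          rw [List.concat_eq_append, ← List.append_assoc] at hxy
          have h2 := List.append_inj' hxy rfl
          exact hpre x y' h2.1
      by_cases hle : (s₀ ++ [l]).length ≤ N
      · exact ⟨s₀ ++ [l], k, hk, hle, hval1, hst1, hpre1⟩
      · have hlen1 : (s₀ ++ [l]).length = N + 1 := by
          rw [List.length_append, List.length_singleton] at hle ⊢
          omega
        generalize s₀ ++ [l] = s₁ at hst1 hval1 hpre1 hle hlen1
        have hch : ∀ i : Fin (N + 1), ∃ t : T, P * val v (s₁.take i) * (t : G)⁻¹ ∈ H := by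
          intro i
          obtain ⟨a, b, hab, ha⟩ := hpre1 (s₁.take i) (s₁.drop i) (List.take_append_drop _ _)
          obtain ⟨t, ht, h1⟩ := hT a b hab
          refine ⟨⟨t, ht⟩, ?_⟩
          have h2 := H.mul_mem ha.2 h1
          rwa [← mul_assoc, inv_mul_cancel_right] at h2
        choose t ht using hch
        have hcard : Fintype.card (σ × T) < Fintype.card (Fin (N + 1)) := by
          rw [Fintype.card_prod, Fintype.card_fin, Fintype.card_coe]
          omega
        obtain ⟨i0, j0, hij0, hf0⟩ := Fintype.exists_ne_map_eq_of_card_lt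
          (fun i : Fin (N + 1) => (M.eval (s₁.take i), t i)) hcard
        have hex : ∃ i j : ℕ, i < j ∧ j ≤ N ∧ Rl v M H P (s₁.take i) (s₁.take j) := by
          have hi := i0.2
          have hj := j0.2
          have hne : (i0 : ℕ) ≠ (j0 : ℕ) := fun h => hij0 (Fin.ext h)
          have h1 : M.eval (s₁.take i0) = M.eval (s₁.take j0) := congrArg Prod.fst hf0
          have h2 : t i0 = t j0 := congrArg Prod.snd hf0
          have h3 : Rl v M H P (s₁.take i0) (s₁.take j0) := by
            refine ⟨h1, ?_⟩
            have h4 := H.mul_mem (ht i0) (H.inv_mem (ht j0))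
            rw [h2, mul_inv_rev, inv_inv, ← mul_assoc, inv_mul_cancel_right] at h4
            exact h4
          rcases Nat.lt_or_gt_of_ne hne with h | h
          · exact ⟨i0, j0, h, by omega, h3⟩
          · exact ⟨j0, i0, h, by omega, h3.symm⟩
        obtain ⟨i, j, hij, hjN, hf⟩ := hex
        obtain ⟨c, u, d, hs₁, hc, hcu, hul, hul1⟩ : ∃ c u d : List α, s₁ = c ++ u ++ d ∧
            s₁.take i = c ∧ s₁.take j = c ++ u ∧ u.length ≤ N ∧ 1 ≤ u.length := by
          refine ⟨s₁.take i, (s₁.take j).drop i, s₁.drop j, ?_, rfl, ?_, ?_, ?_⟩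
          · have h1 : s₁.take i ++ (s₁.take j).drop i = s₁.take j := by
              have h2 : s₁.take i = (s₁.take j).take i := by
                rw [List.take_take, min_eq_left hij.le]
              rw [h2, List.take_append_drop]
            rw [h1, List.take_append_drop]
          · have h2 : s₁.take i = (s₁.take j).take i := by
              rw [List.take_take, min_eq_left hij.le]
            rw [h2, List.take_append_drop]
          · rw [List.length_drop, List.length_take]
            omega
          · rw [List.length_drop, List.length_take]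
            omega
        rw [hc, hcu] at hf
        have hpc : ∃ a b : List α, a ++ b = s ∧ Rl v M H P c a :=
          hpre1 c (u ++ d) (by rw [hs₁]; simp)
        obtain ⟨a, b, hab, hac⟩ := hpc
        have hloop : M.evalFrom (M.eval a) u = M.eval a := by
          rw [← hac.1]
          have h1 : M.eval (c ++ u) = M.evalFrom (M.eval c) u := by
            simp [DFA.eval, DFA.evalFrom_of_append]
          rw [← h1, ← hf.1]
        have h'H := hac.2
        have huH : P * val v a * val v u * (P * val v a)⁻¹ ∈ H := by
          have h1 := H.mul_mem (H.mul_mem (H.inv_mem h'H) hf.symm.2) h'H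
          have h2 : (P * val v c * (P * val v a)⁻¹)⁻¹ *
              (P * val v (c ++ u) * (P * val v c)⁻¹) * (P * val v c * (P * val v a)⁻¹) =
              P * val v a * val v u * (P * val v a)⁻¹ := by
            rw [val_append]
            group
          rwa [h2] at h1
        have hg := hgood a b hab u hul hloop huH
        have hk2 := hSH _ h'H _ hg
        have heq : (P * val v c * (P * val v a)⁻¹) *
            (P * val v a * val v u * (P * val v a)⁻¹) *
            (P * val v c * (P * val v a)⁻¹)⁻¹ =
            (P * val v c) * val v u * (P * val v c)⁻¹ := by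
          group
        rw [heq] at hk2
        refine ⟨c ++ d, k * ((P * val v c) * val v u * (P * val v c)⁻¹), S.mul_mem hk hk2,
          ?_, ?_, ?_, ?_⟩
        · have h1 : s₁.length = c.length + u.length + d.length := by
            rw [hs₁]; simp [add_assoc]
          rw [List.length_append]
          omega
        · rw [hval1, hs₁]
          simp only [val_append]
          group
        · refine Rl.trans ?_ hst1
          rw [hs₁]
          exact hf.append d
        · intro x y hxy
          rcases List.append_eq_append_iff.1 hxy with ⟨a', h1, h2⟩ | ⟨c', h1, h2⟩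
          · refine hpre1 x (a' ++ u ++ d) ?_
            rw [hs₁, h1]
            simp
          · obtain ⟨a₂, b₂, h3, h4⟩ := hpre1 (c ++ u ++ c') y (by rw [hs₁, h2]; simp)
            refine ⟨a₂, b₂, h3, Rl.trans ?_ h4⟩
            rw [h1]
            exact hf.append c'
  obtain ⟨s₀, k, hk, hlen, hval, -, -⟩ := main s [] (List.append_nil s)
  exact ⟨s₀, k, hk, hlen, hval⟩

end Pool.Agent.MorseGeo
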