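import Mathlib
import Pool.Agent.NilGeo.Len

set_option autoImplicit false

/-!
# Virtually nilpotent Morse subgroups of groups with regular geodesics: definitions

`val`, `Geo`, `len` are those of `Pool.Agent.NilGeo`. `Nb v K R` is the set of the points at
distance at most `R` from the subgroup `K`; `QC v K R`: every word with value in `K`, all of whose
subwords `s` satisfy `|s| ≤ 6 len (V s)`, stays in `Nb v K R`; `fmn v N z` is the minimal length of
`x⁻¹ z x`, `x ∈ N`.
-/

namespace Pool.Agent.MorseGeo

open Pool.Agent.NilGeo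

variable {G : Type*} [Group G] {α : Type*}

/-- The points at distance at most `R` from `K`. -/
def Nb (v : α → G) (K : Subgroup G) (R : ℕ) : Set G := {x | ∃ g : G, len v g ≤ R ∧ x * g ∈ K}

/-- Paths between points of `K` which are `6`-quasigeodesics stay at distance at most `R` from
`K`. -/
def QC (v : α → G) (K : Subgroup G) (R : ℕ) : Prop :=
  ∀ u : List α, val v u ∈ K →
    (∀ u1 s u3 : List α, u1 ++ s ++ u3 = u → s.length ≤ 6 * len v (val v s)) →
    ∀ u1 u2 : List α, u1 ++ u2 = u → val v u1 ∈ Nb v K R

/-- The minimal length of `x⁻¹ z x`, `x ∈ N`. -/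
noncomputable def fmn (v : α → G) (N : Set G) (z : G) : ℕ :=
  sInf {n | ∃ x ∈ N, len v (x⁻¹ * z * x) = n}

end Pool.Agent.MorseGeo
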