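import Mathlib

set_option autoImplicit false

/-!
# Package MG8: the subgroup `Γ'`, without normality in `G` (adapt `Pool/Agent/NilGeo/Gam.lean`)

As `gam` in `NilGeo/Gam.lean`; the normality of `Y` is only used for conjugation by elements of
`H` (hypothesis `hYn`). Copy the proof, replacing `Subgroup.Normal.conj_mem'` by `hYn` for
`h⁻¹` (`h⁻¹ y h⁻¹⁻¹`).
-/

namespace Pool.Agent.MorseGeo

variable {G : Type*} [Group G]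

theorem gamM (H A Y : Subgroup G) (hAH : A ≤ H)
    (hA : ∀ z ∈ A, ∀ h ∈ H, z * h = h * z) (hYH : Y ≤ H)
    (hYn : ∀ h ∈ H, ∀ y ∈ Y, h * y * h⁻¹ ∈ Y)
    (hYA : ∀ y ∈ Y, ∀ h ∈ H, y⁻¹ * h⁻¹ * y * h ∈ A)
    (φ : G → ℝ) (hφ : ∀ a ∈ A, ∀ b ∈ A, φ (a * b) = φ a + φ b) :
    ∃ S : Subgroup G, (∀ g, g ∈ S ↔ g ∈ H ∧ ∀ y ∈ Y, φ (y⁻¹ * g⁻¹ * y * g) = 0) ∧
      (∀ h ∈ H, ∀ g ∈ S, h * g * h⁻¹ ∈ S) ∧ A ≤ S := by
  have h1 : φ 1 = 0 := by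
    have h2 := hφ 1 A.one_mem 1 A.one_mem
    rw [one_mul] at h2
    linarith
  have hinv : ∀ a ∈ A, φ a⁻¹ = - φ a := by
    intro a ha
    have h2 := hφ a ha a⁻¹ (A.inv_mem ha)
    rw [mul_inv_cancel, h1] at h2
    linarith
  have key : ∀ y ∈ Y, ∀ g ∈ H, ∀ g' ∈ H, y⁻¹ * (g * g')⁻¹ * y * (g * g') =
      (y⁻¹ * g'⁻¹ * y * g') * (y⁻¹ * g⁻¹ * y * g) := by
    intro y hy g hg g' hg'
    have h2 := hA _ (hYA y hy g hg) g' hg'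
    calc y⁻¹ * (g * g')⁻¹ * y * (g * g')
        = y⁻¹ * g'⁻¹ * y * ((y⁻¹ * g⁻¹ * y * g) * g') := by group
      _ = (y⁻¹ * g'⁻¹ * y * g') * (y⁻¹ * g⁻¹ * y * g) := by
        rw [h2]
        group
  refine ⟨{ carrier := {g | g ∈ H ∧ ∀ y ∈ Y, φ (y⁻¹ * g⁻¹ * y * g) = 0}
            mul_mem' := ?_
            one_mem' := ?_
            inv_mem' := ?_ }, fun g => Iff.rfl, ?_, ?_⟩
  · rintro a b ⟨ha, ha'⟩ ⟨hb, hb'⟩
    refine ⟨H.mul_mem ha hb, fun y hy => ?_⟩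
    rw [key y hy a ha b hb, hφ _ (hYA y hy b hb) _ (hYA y hy a ha), ha' y hy, hb' y hy, add_zero]
  · refine ⟨H.one_mem, fun y _ => ?_⟩
    have h2 : y⁻¹ * (1 : G)⁻¹ * y * 1 = 1 := by group
    rw [h2, h1]
  · rintro a ⟨ha, ha'⟩
    refine ⟨H.inv_mem ha, fun y hy => ?_⟩
    have h2 := key y hy a ha a⁻¹ (H.inv_mem ha)
    have h3 : y⁻¹ * (a * a⁻¹)⁻¹ * y * (a * a⁻¹) = 1 := by group
    rw [h3] at h2
    have h4 : y⁻¹ * a⁻¹⁻¹ * y * a⁻¹ = (y⁻¹ * a⁻¹ * y * a)⁻¹ := eq_inv_of_mul_eq_one_left h2.symm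
    rw [h4, hinv _ (hYA y hy a ha), ha' y hy, neg_zero]
  · rintro h hh g ⟨hg, hg'⟩
    refine ⟨H.mul_mem (H.mul_mem hh hg) (H.inv_mem hh), fun y hy => ?_⟩
    have hy' : h⁻¹ * y * h ∈ Y := by
      have := hYn h⁻¹ (H.inv_mem hh) y hy
      rwa [inv_inv] at this
    have h2 := hA _ (hYA _ hy' g hg) h hh
    have h3 : y⁻¹ * (h * g * h⁻¹)⁻¹ * y * (h * g * h⁻¹) =
        h * ((h⁻¹ * y * h)⁻¹ * g⁻¹ * (h⁻¹ * y * h) * g) * h⁻¹ := by group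
    rw [h3, ← h2, mul_inv_cancel_right]
    exact hg' _ hy'
  · intro a ha
    refine ⟨hAH ha, fun y hy => ?_⟩
    have h2 := hA a ha y (hYH hy)
    have h3 : y⁻¹ * a⁻¹ * y * a = 1 := by
      rw [mul_assoc, ← h2]
      group
    rw [h3, h1]

end Pool.Agent.MorseGeo
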