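import Mathlib
import Pool.Agent.NilGeo.Len

set_option autoImplicit false

/-!
# Package MG5: pumping, version without normality (adapt `Pool/Agent/NilGeo/Pump.lean`)

As `NilGeo/Pump.lean` (please read its docstring and adapt its proof), but `H`, `A`, `Y` are not
normal in `G`. `P = r * V w1`, `q = P * V a`, `U = q * V u * q⁻¹ ∈ H`, `y` is an element of `G` with
`y' = q * y * q⁻¹ ∈ Y`, and `B = y'⁻¹ * U⁻¹ * y' * U ∈ A`.

Proof. `b = w3 ++ w1`; the word `a ++ b` has the value `P⁻¹ z P` and the length of `w`, at most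
`len (P⁻¹ z P)` (`hmin`), so it is geodesic; hence `a ++ u^t ++ b` is accepted by `M` and geodesic
(loop). Its value is `Va (V u)^t Va⁻¹ P⁻¹ z P = P⁻¹ U^t z P` (`q = P Va`). As `B` commutes with `U`
(`B ∈ A`, `U ∈ H`), `U^t = y'⁻¹ U^t y' B^t` and, conjugating by `q`,
`(V u)^t = y⁻¹ (V u)^t y (q⁻¹ B^t q)`. So the value is
`(Va y⁻¹) (V u)^t (y Va⁻¹) * (Va q⁻¹ B^t q Va⁻¹) * (P⁻¹ z P)` and
`Va q⁻¹ B^t q Va⁻¹ = P⁻¹ B^t P`, so the last two factors are `P⁻¹ B^t z P = P⁻¹ z B^t P`. Lengths: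
`|a| + t |u| + |b| ≤ 2 |a| + 2 len y + t |u| + len (P⁻¹ z B^t P)`.
-/

namespace Pool.Agent.MorseGeo

open Pool.Agent.NilGeo

variable {G : Type*} [Group G] {α : Type*}

private theorem evalFrom_replicateM {σ : Type*} (M : DFA α σ) (s : σ) (u : List α)
    (h : M.evalFrom s u = s) (t : ℕ) : M.evalFrom s (List.replicate t u).flatten = s := by
  induction t with
  | zero => rfl
  | succ t ih =>
    rw [List.replicate_succ, List.flatten_cons, DFA.evalFrom_of_append, h, ih]

private theorem length_replicate_flattenM (u : List α) (t : ℕ) :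
    (List.replicate t u).flatten.length = t * u.length := by
  induction t with
  | zero => simp
  | succ t ih =>
    rw [List.replicate_succ, List.flatten_cons, List.length_append, ih, Nat.succ_mul]
    omega

private theorem val_replicateM (v : α → G) (u : List α) (t : ℕ) :
    val v (List.replicate t u).flatten = val v u ^ t := by
  induction t with
  | zero => simp
  | succ t ih =>
    rw [List.replicate_succ, List.flatten_cons, val_append, ih, pow_succ']

theorem pumpM {σ : Type*} (v : α → G) (hsym : ∀ a, ∃ b, v b = (v a)⁻¹)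
    (hsurj : ∀ g, ∃ w, val v w = g) (M : DFA α σ)
    (hM : ∀ w, M.eval w ∈ M.accept ↔ Geo v w)
    (H A Y : Subgroup G) (hAH : A ≤ H)
    (hA : ∀ z ∈ A, ∀ h ∈ H, z * h = h * z) (hYH : Y ≤ H)
    (hYA : ∀ y ∈ Y, ∀ h ∈ H, y⁻¹ * h⁻¹ * y * h ∈ A)
    (z r : G) (hz : z ∈ A) (w1 a w3 : List α)
    (hw : val v (w1 ++ a ++ w3) = r⁻¹ * z * r)
    (hmin : (w1 ++ a ++ w3).length ≤ len v ((r * val v w1)⁻¹ * z * (r * val v w1)))
    (u : List α) (hloop : M.evalFrom (M.eval a) u = M.eval a) (q : G)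
    (hq : q = r * val v w1 * val v a) (U : G) (hU : U = q * val v u * q⁻¹) (hUH : U ∈ H)
    (y y' : G) (hy : y' = q * y * q⁻¹) (hyY : y' ∈ Y) (t : ℕ) :
    (w1 ++ a ++ w3).length ≤ 2 * a.length + 2 * len v y +
      len v ((r * val v w1)⁻¹ * (z * (y'⁻¹ * U⁻¹ * y' * U) ^ t) * (r * val v w1)) := by
  set V1 := val v w1 with hV1
  set Va := val v a with hVa
  set Vu := val v u with hVu
  set V3 := val v w3 with hV3
  set P := r * V1 with hP
  have hw' : V1 * Va * V3 = r⁻¹ * z * r := by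
    rw [← hw, val_append, val_append]
  have hVb : Va * (V3 * V1) = P⁻¹ * z * P := by
    have h1 : Va * (V3 * V1) = V1⁻¹ * (V1 * Va * V3) * V1 := by group
    rw [h1, hw', hP]
    group
  -- the rotation is geodesic
  have hlen1 : (a ++ (w3 ++ w1)).length = (w1 ++ a ++ w3).length := by
    simp only [List.length_append]
    omega
  have hval1 : val v (a ++ (w3 ++ w1)) = P⁻¹ * z * P := by
    rw [val_append, val_append]
    exact hVb
  have hgeo1 : Geo v (a ++ (w3 ++ w1)) := by
    rw [geo_iff v hsurj]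
    apply le_antisymm (len_le v rfl)
    rw [hval1, hlen1]
    exact hmin
  have hacc : M.eval (a ++ (w3 ++ w1)) ∈ M.accept := (hM _).2 hgeo1
  -- the pumped word is geodesic
  have heval : M.eval (a ++ ((List.replicate t u).flatten ++ (w3 ++ w1))) =
      M.eval (a ++ (w3 ++ w1)) := by
    have hev : ∀ x y : List α, M.eval (x ++ y) = M.evalFrom (M.eval x) y :=
      fun x y => DFA.evalFrom_of_append M _ x y
    rw [hev, hev, M.evalFrom_of_append (M.eval a) (List.replicate t u).flatten,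
      evalFrom_replicateM M _ u hloop t]
  have hgeo2 : Geo v (a ++ ((List.replicate t u).flatten ++ (w3 ++ w1))) := by
    rw [← hM, heval]
    exact hacc
  have hval2 : val v (a ++ ((List.replicate t u).flatten ++ (w3 ++ w1))) =
      Va * (Vu ^ t * (V3 * V1)) := by
    rw [val_append, val_append, val_append, val_replicateM]
  have hlen2 := (geo_iff v hsurj _).1 hgeo2
  rw [hval2] at hlen2
  -- the central element
  set c := y⁻¹ * Vu⁻¹ * y * Vu with hc
  have hBA : y'⁻¹ * U⁻¹ * y' * U ∈ A := hYA y' hyY U hUH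
  have hBc : y'⁻¹ * U⁻¹ * y' * U = q * c * q⁻¹ := by
    rw [hy, hU, hc]
    group
  rw [hBc] at hBA ⊢
  have hcU : c * Vu = Vu * c := by
    have h1 := hA _ hBA U hUH
    have h2 : c * Vu = q⁻¹ * (q * c * q⁻¹ * U) * q := by
      rw [hU]
      group
    rw [h2, h1, hU]
    group
  have hyU : y⁻¹ * Vu * y = Vu * c⁻¹ := by
    rw [hc]
    group
  have hpow : y⁻¹ * Vu ^ t * y * c ^ t = Vu ^ t := by
    have h1 : y⁻¹ * Vu ^ t * y = (y⁻¹ * Vu * y) ^ t := by
      have h2 := conj_pow (i := t) (a := y⁻¹) (b := Vu)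
      rw [inv_inv] at h2
      exact h2.symm
    have h3 : Commute Vu c⁻¹ := by
      have h4 : Commute Vu c := hcU.symm
      exact h4.inv_right
    rw [h1, hyU, h3.mul_pow, inv_pow, inv_mul_cancel_right]
  have hBt : (q * c * q⁻¹) ^ t ∈ A := A.pow_mem hBA t
  have hzB : z * (q * c * q⁻¹) ^ t = (q * c * q⁻¹) ^ t * z := hA z hz _ (hAH hBt)
  have hlast : P⁻¹ * (z * (q * c * q⁻¹) ^ t) * P = Va * c ^ t * (V3 * V1) := by
    rw [hzB, conj_pow]
    have h1 : P⁻¹ * (q * c ^ t * q⁻¹ * z) * P = P⁻¹ * q * c ^ t * q⁻¹ * P * (P⁻¹ * z * P) := by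
      group
    rw [h1, ← hVb, hq]
    group
  have hmain : Va * (Vu ^ t * (V3 * V1)) =
      Va * (y⁻¹ * (Vu ^ t * (y * (Va⁻¹ * (P⁻¹ * (z * (q * c * q⁻¹) ^ t) * P))))) := by
    rw [hlast]
    have h1 : Va * (y⁻¹ * (Vu ^ t * (y * (Va⁻¹ * (Va * c ^ t * (V3 * V1)))))) =
        Va * (y⁻¹ * Vu ^ t * y * c ^ t) * (V3 * V1) := by
      group
    rw [h1, hpow]
    group
  have e1 : len v Va ≤ a.length := len_le v rfl
  have e2 : len v y⁻¹ ≤ len v y := len_inv_le v hsym hsurj y
  have e3 : len v (Vu ^ t) ≤ t * u.length := by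
    rw [← length_replicate_flattenM]
    exact len_le v (val_replicateM v u t)
  have e4 : len v Va⁻¹ ≤ len v Va := len_inv_le v hsym hsurj Va
  have hfin : len v (Va * (Vu ^ t * (V3 * V1))) ≤ len v Va + (len v y⁻¹ + (len v (Vu ^ t) +
      (len v y + (len v Va⁻¹ + len v (P⁻¹ * (z * (q * c * q⁻¹) ^ t) * P))))) := by
    rw [hmain]
    refine (len_mul_le v hsurj _ _).trans (Nat.add_le_add_left ?_ _)
    refine (len_mul_le v hsurj _ _).trans (Nat.add_le_add_left ?_ _)
    refine (len_mul_le v hsurj _ _).trans (Nat.add_le_add_left ?_ _)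
    refine (len_mul_le v hsurj _ _).trans (Nat.add_le_add_left ?_ _)
    exact len_mul_le v hsurj _ _
  rw [hlen2] at hfin
  simp only [List.length_append, length_replicate_flattenM] at hfin hlen1 ⊢
  omega

end Pool.Agent.MorseGeo
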