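import Mathlib
import Pool.Agent.NilGeo.Unif

set_option autoImplicit false

/-!
# Package MG11: contraction constants, without normality (adapt `Pool/Agent/NilGeo/Unif.lean`)

`contract` of `NilGeo/Unif.lean` may be used; copy its private lemmas `fin_lt`, `fin_bdd`.

`q * r⁻¹ = h ∈ H`, `r ∈ T`, `U = q * V u * q⁻¹ ∈ H`, `U' = r * V u * r⁻¹ = h⁻¹ U h ∈ H`. For `y ∈ Y` put
`y₁ = h⁻¹ y h ∈ Y` (`hYn`); then `y⁻¹ U⁻¹ y U = h (y₁⁻¹ U'⁻¹ y₁ U') h⁻¹ = y₁⁻¹ U'⁻¹ y₁ U'`, because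
this is an element of `A` (`hYA`). So everything depends on the pair `(r, u)` in the finite set
`{(r, u) | r ∈ T, |u| ≤ N, r * V u * r⁻¹ ∈ H, ∃ y₁ ∈ Y, ⟪e, ι (y₁⁻¹ U'⁻¹ y₁ U')⟫ ≠ 0}`. For each such
pair choose `y₁ ∈ Y` with `⟪e, ι (y₁⁻¹ U'⁻¹ y₁ U')⟫ < 0` (as in `NilGeo/Unif.lean`: otherwise replace
`y₁` by `y₁⁻¹`) and `s` from `contract`. Take `y = r⁻¹ * y₁ * r`: `q * y * q⁻¹ = h y₁ h⁻¹ ∈ Y`, and
`(q y q⁻¹)⁻¹ U⁻¹ (q y q⁻¹) U = y₁⁻¹ U'⁻¹ y₁ U'`. `L` bounds the lengths `len (r⁻¹ y₁ r)`.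
-/

open scoped InnerProductSpace

namespace Pool.Agent.MorseGeo

open Pool.Agent.NilGeo

private theorem fin_lt {P : Type*} (T : Set P) (hT : T.Finite) (f : P → ℝ)
    (hf : ∀ p ∈ T, f p < 1) : ∃ θ : ℝ, θ < 1 ∧ 0 ≤ θ ∧ ∀ p ∈ T, f p ≤ θ := by
  rcases T.eq_empty_or_nonempty with h | h
  · exact ⟨0, by norm_num, le_refl _, fun p hp => by simp [h] at hp⟩
  · obtain ⟨a, ha, hmax⟩ := Set.exists_max_image T f hT h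
    exact ⟨max 0 (f a), max_lt (by norm_num) (hf a ha), le_max_left _ _,
      fun p hp => le_trans (hmax p hp) (le_max_right _ _)⟩

private theorem fin_bdd {P : Type*} (T : Set P) (hT : T.Finite) (f : P → ℝ) :
    ∃ M : ℝ, 0 ≤ M ∧ ∀ p ∈ T, f p ≤ M := by
  rcases T.eq_empty_or_nonempty with h | h
  · exact ⟨0, le_refl _, fun p hp => by simp [h] at hp⟩
  · obtain ⟨a, ha, hmax⟩ := Set.exists_max_image T f hT h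
    exact ⟨max 0 (f a), le_max_left _ _,
      fun p hp => le_trans (hmax p hp) (le_max_right _ _)⟩

theorem unifM {G : Type*} [Group G] {α : Type*} [Finite α] (v : α → G)
    {E : Type*} [NormedAddCommGroup E] [InnerProductSpace ℝ E] (ι : G → E)
    (H A Y : Subgroup G)
    (hA : ∀ z ∈ A, ∀ h ∈ H, z * h = h * z) (hYH : Y ≤ H)
    (hYn : ∀ h ∈ H, ∀ y ∈ Y, h * y * h⁻¹ ∈ Y)
    (hYA : ∀ y ∈ Y, ∀ h ∈ H, y⁻¹ * h⁻¹ * y * h ∈ A)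
    (hι : ∀ a ∈ A, ∀ b ∈ A, ι (a * b) = ι a + ι b) (T : Finset G)
    (e : E) (he : ‖e‖ = 1) (N : ℕ) :
    ∃ θ S L B₀ : ℝ, θ < 1 ∧ 0 ≤ θ ∧ 0 ≤ S ∧ 0 ≤ L ∧ 0 ≤ B₀ ∧ ∀ (q : G) (u : List α) (U : G),
      (∃ r ∈ T, q * r⁻¹ ∈ H) → u.length ≤ N → U = q * val v u * q⁻¹ → U ∈ H →
      (∃ y ∈ Y, ⟪e, ι (y⁻¹ * U⁻¹ * y * U)⟫_ℝ ≠ 0) →
      ∃ y y' : G, y' = q * y * q⁻¹ ∧ y' ∈ Y ∧ ∃ s : ℝ, 0 ≤ s ∧ s ≤ S ∧ (len v y : ℝ) ≤ L ∧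
        ‖ι (y'⁻¹ * U⁻¹ * y' * U)‖ ≤ B₀ ∧ ‖e + s • ι (y'⁻¹ * U⁻¹ * y' * U)‖ ≤ θ := by
  classical
  have hι1 : ι 1 = 0 := by
    have h1 := hι 1 A.one_mem 1 A.one_mem
    rw [mul_one] at h1
    simpa using h1
  have hιinv : ∀ a ∈ A, ι a⁻¹ = - ι a := by
    intro a ha
    have h1 := hι a ha a⁻¹ (A.inv_mem ha)
    rw [mul_inv_cancel, hι1] at h1
    exact (neg_eq_of_add_eq_zero_right h1.symm).symm
  have hwords : {u : List α | u.length ≤ N}.Finite := List.finite_length_le α N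
  let W : G × List α → G := fun p => p.1 * val v p.2 * p.1⁻¹
  let R : Set (G × List α) := {p | (p.1 ∈ T ∧ p.2.length ≤ N) ∧ W p ∈ H ∧
    ∃ y ∈ Y, ⟪e, ι (y⁻¹ * (W p)⁻¹ * y * W p)⟫_ℝ ≠ 0}
  have hRfin : R.Finite := by
    refine ((Finset.finite_toSet T).prod hwords).subset ?_
    rintro ⟨r, u⟩ h
    exact ⟨h.1.1, h.1.2⟩
  have hch : ∀ p : G × List α, ∃ ys : G × ℝ, p ∈ R → ys.1 ∈ Y ∧ 0 < ys.2 ∧
      ‖e + ys.2 • ι (ys.1⁻¹ * (W p)⁻¹ * ys.1 * W p)‖ < 1 := by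
    intro p
    by_cases hp : p ∈ R
    · obtain ⟨-, hU, y, hy, hne⟩ := hp
      have key : ∃ y' ∈ Y, ⟪e, ι (y'⁻¹ * (W p)⁻¹ * y' * W p)⟫_ℝ < 0 := by
        rcases lt_or_gt_of_ne hne with hlt | hgt
        · exact ⟨y, hy, hlt⟩
        · refine ⟨y⁻¹, Y.inv_mem hy, ?_⟩
          have hc : y⁻¹ * (W p)⁻¹ * y * W p ∈ A := hYA y hy _ hU
          have hcomm := hA _ (A.inv_mem hc) y (hYH hy)
          have hc' : y⁻¹⁻¹ * (W p)⁻¹ * y⁻¹ * W p = (y⁻¹ * (W p)⁻¹ * y * W p)⁻¹ := by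
            have h1 : y⁻¹⁻¹ * (W p)⁻¹ * y⁻¹ * W p =
                y * (y⁻¹ * (W p)⁻¹ * y * W p)⁻¹ * y⁻¹ := by
              group
            rw [h1, ← hcomm, mul_inv_cancel_right]
          rw [hc', hιinv _ hc, inner_neg_right]
          linarith
      obtain ⟨y', hy', hlt⟩ := key
      obtain ⟨s, hs, hs1⟩ := contract e _ he hlt
      exact ⟨(y', s), fun _ => ⟨hy', hs, hs1⟩⟩
    · exact ⟨(1, 0), fun h => absurd h hp⟩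
  choose F hF using hch
  obtain ⟨θ, hθ1, hθ0, hθ⟩ := fin_lt R hRfin
    (fun p => ‖e + (F p).2 • ι ((F p).1⁻¹ * (W p)⁻¹ * (F p).1 * W p)‖)
    (fun p hp => (hF p hp).2.2)
  obtain ⟨S, hS0, hS⟩ := fin_bdd R hRfin (fun p => (F p).2)
  obtain ⟨L, hL0, hL⟩ := fin_bdd R hRfin (fun p => (len v (p.1⁻¹ * (F p).1 * p.1) : ℝ))
  obtain ⟨B₀, hB0, hB⟩ := fin_bdd R hRfin
    (fun p => ‖ι ((F p).1⁻¹ * (W p)⁻¹ * (F p).1 * W p)‖)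
  refine ⟨θ, S, L, B₀, hθ1, hθ0, hS0, hL0, hB0, ?_⟩
  intro q u U hr hu hUq hU hbad
  obtain ⟨r, hrT, hh⟩ := hr
  obtain ⟨h, hhdef⟩ : ∃ h, h = q * r⁻¹ := ⟨_, rfl⟩
  rw [← hhdef] at hh
  have hW : W (r, u) = h⁻¹ * U * h := by
    change r * val v u * r⁻¹ = h⁻¹ * U * h
    rw [hUq, hhdef]
    group
  have hWH : W (r, u) ∈ H := by
    rw [hW]
    exact H.mul_mem (H.mul_mem (H.inv_mem hh) hU) hh
  have hpR : (r, u) ∈ R := by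
    obtain ⟨y, hy, hne⟩ := hbad
    refine ⟨⟨hrT, hu⟩, hWH, h⁻¹ * y * h, ?_, ?_⟩
    · have h1 := hYn h⁻¹ (H.inv_mem hh) y hy
      rwa [inv_inv] at h1
    · have h1 : y⁻¹ * U⁻¹ * y * U ∈ A := hYA y hy U hU
      have h2 : (h⁻¹ * y * h)⁻¹ * (W (r, u))⁻¹ * (h⁻¹ * y * h) * W (r, u) =
          h⁻¹ * ((y⁻¹ * U⁻¹ * y * U) * h) := by
        rw [hW]
        group
      rw [h2, hA _ h1 h hh, inv_mul_cancel_left]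
      exact hne
  obtain ⟨hy, hs, -⟩ := hF _ hpR
  obtain ⟨y₁, hy₁⟩ : ∃ y₁, y₁ = (F (r, u)).1 := ⟨_, rfl⟩
  have hc : y₁⁻¹ * (W (r, u))⁻¹ * y₁ * W (r, u) ∈ A := by
    rw [hy₁]
    exact hYA _ hy _ hWH
  have hkey : (h * y₁ * h⁻¹)⁻¹ * U⁻¹ * (h * y₁ * h⁻¹) * U =
      y₁⁻¹ * (W (r, u))⁻¹ * y₁ * W (r, u) := by
    have h1 : (h * y₁ * h⁻¹)⁻¹ * U⁻¹ * (h * y₁ * h⁻¹) * U =
        h * (y₁⁻¹ * (W (r, u))⁻¹ * y₁ * W (r, u)) * h⁻¹ := by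
      rw [hW]
      group
    rw [h1, ← hA _ hc h hh, mul_inv_cancel_right]
  refine ⟨r⁻¹ * y₁ * r, h * y₁ * h⁻¹, ?_, ?_, (F (r, u)).2, hs.le, hS _ hpR, ?_, ?_, ?_⟩
  · rw [hhdef]
    group
  · rw [hy₁]
    exact hYn h hh _ hy
  · rw [hy₁]
    exact hL _ hpR
  · rw [hkey, hy₁]
    exact hB _ hpR
  · rw [hkey, hy₁]
    exact hθ _ hpR

end Pool.Agent.MorseGeo
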