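import Mathlib
import Pool.Agent.MorseGeo.Defs
import Pool.Agent.MorseGeo.PumpM
import Pool.Agent.MorseGeo.UnifM
import Pool.Agent.NilGeo.Ineq

set_option autoImplicit false

/-!
# Package MG12: near-maximisers have no bad loops (adapt `Pool/Agent/NilGeo/NoBad.lean`)

Assembly of `pumpM`, `unifM`, `ineq` (black boxes), as in `NilGeo/NoBad.lean`; `fmn v Nh` replaces
`fmin v`, the hypotheses `hmn` (instead of `fmin_le`) and `hD` (instead of `le_fmin`) hold for the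
points of the set `Nh`, and the commutators are now written `y'⁻¹ U⁻¹ y' U` with `U ∈ H` instead of
`q (y⁻¹ (V u)⁻¹ y (V u)) q⁻¹`.

Proof. `θ, S, L, B₀` from `unifM`, `ε, η` from `ineq c Mx θ`, `C'` from `hup η`, `R` from `ineq` with
the constants `max C' 0`, `K = 2 L + 2 D0`, `B₁ = B₀`. Suppose `⟪e, ι (y⁻¹ U⁻¹ y U)⟫ ≠ 0` for some
`y ∈ Y`. `unifM` (with `hT` for `q ∈ Nh`) gives `y`, `y' = q y q⁻¹ ∈ Y`, `s`. Put
`B = y'⁻¹ U⁻¹ y' U ∈ A` (`hYA`), `t = ⌊s ‖ι z‖⌋₊`, `x = z * B ^ t ∈ A`, `P = r * V w1`. `pumpM`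
(`hmin`: `|w| = fmn v Nh z ≤ len (P⁻¹ z P)` by `hmn` for `P ∈ Nh`) gives
`|w| ≤ 2 |a| + 2 len y + len (P⁻¹ x P)`, and `len (P⁻¹ x P) ≤ fmn x + 2 D0` (`hD`). The rest is the
computation in `NilGeo/NoBad.lean`.
-/

open scoped InnerProductSpace

namespace Pool.Agent.MorseGeo

open Pool.Agent.NilGeo

theorem noBadM {G : Type*} [Group G] {α : Type*} [Finite α] {σ : Type*} (v : α → G)
    (hsym : ∀ a, ∃ b, v b = (v a)⁻¹) (hsurj : ∀ g, ∃ w, val v w = g) (M : DFA α σ)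
    (hM : ∀ w, M.eval w ∈ M.accept ↔ Geo v w)
    {E : Type*} [NormedAddCommGroup E] [InnerProductSpace ℝ E] (ι : G → E)
    (H A Y : Subgroup G) (hAH : A ≤ H)
    (hA : ∀ z ∈ A, ∀ h ∈ H, z * h = h * z) (hYH : Y ≤ H)
    (hYn : ∀ h ∈ H, ∀ y ∈ Y, h * y * h⁻¹ ∈ Y)
    (hYA : ∀ y ∈ Y, ∀ h ∈ H, y⁻¹ * h⁻¹ * y * h ∈ A)
    (hι : ∀ a ∈ A, ∀ b ∈ A, ι (a * b) = ι a + ι b)
    (Nh : Set G) (T : Finset G) (hT : ∀ x ∈ Nh, ∃ r ∈ T, x * r⁻¹ ∈ H) (D0 : ℕ)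
    (hD : ∀ z ∈ A, ∀ x ∈ Nh, len v (x⁻¹ * z * x) ≤ fmn v Nh z + 2 * D0)
    (hmn : ∀ z : G, ∀ x ∈ Nh, fmn v Nh z ≤ len v (x⁻¹ * z * x))
    (e : E) (he : ‖e‖ = 1) (c : ℕ) (Mx : ℝ) (hMx : 0 < Mx)
    (hup : ∀ η : ℝ, 0 < η → ∃ C' : ℝ, ∀ z ∈ A, (fmn v Nh z : ℝ) ^ c ≤ (Mx + η) * ‖ι z‖ + C')
    (N : ℕ) :
    ∃ ε η R : ℝ, 0 < ε ∧ 0 < η ∧ η < 1 / 2 ∧ 0 < R ∧ ∀ z ∈ A, R ≤ ‖ι z‖ →
      (Mx - η) * ‖ι z‖ ≤ (fmn v Nh z : ℝ) ^ c → ‖ι z - ‖ι z‖ • e‖ ≤ η * ‖ι z‖ →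
      ∀ (r : G) (w1 a w3 : List α), val v (w1 ++ a ++ w3) = r⁻¹ * z * r →
        (w1 ++ a ++ w3).length = fmn v Nh z →
        r * val v w1 ∈ Nh → r * val v w1 * val v a ∈ Nh →
        (a.length : ℝ) ≤ ε * ((w1 ++ a ++ w3).length : ℝ) →
        ∀ (u : List α) (U : G), u.length ≤ N → M.evalFrom (M.eval a) u = M.eval a →
        U = (r * val v w1 * val v a) * val v u * (r * val v w1 * val v a)⁻¹ → U ∈ H →
        ∀ y ∈ Y, ⟪e, ι (y⁻¹ * U⁻¹ * y * U)⟫_ℝ = 0 := by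
  obtain ⟨θ, S, L, B₀, hθ1, hθ0, hS0, hL0, hB0, hunif⟩ :=
    unifM v ι H A Y hA hYH hYn hYA hι T e he N
  obtain ⟨ε, η, hε0, hε3, hη0, hη2, hηM, hineq⟩ := ineq c Mx θ hMx hθ0 hθ1
  obtain ⟨C', hC'⟩ := hup η hη0
  obtain ⟨R, hR0, hR⟩ := hineq (max C' 0) (2 * L + 2 * D0) B₀ (le_max_right _ _)
    (by positivity) hB0
  refine ⟨ε, η, R, hε0, hη0, hη2, hR0, ?_⟩
  intro z hz hRz hlow hdir r w1 a w3 hval hlen hPN hqN hε u U hu hloop hUdef hUH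
  by_contra hcon
  push Not at hcon
  obtain ⟨y0, hy0, hne⟩ := hcon
  obtain ⟨y, y', hy', hyY, s, hs0, -, hly, hB, hes⟩ :=
    hunif (r * val v w1 * val v a) u U (hT _ hqN) hu hUdef hUH ⟨y0, hy0, hne⟩
  set B : G := y'⁻¹ * U⁻¹ * y' * U with hBdef
  have hBA : B ∈ A := hYA y' hyY U hUH
  set t : ℕ := ⌊s * ‖ι z‖⌋₊ with ht
  have hxA : z * B ^ t ∈ A := A.mul_mem hz (A.pow_mem hBA t)
  have hmin : (w1 ++ a ++ w3).length ≤ len v ((r * val v w1)⁻¹ * z * (r * val v w1)) := by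
    rw [hlen]
    exact hmn z _ hPN
  have hp := pumpM v hsym hsurj M hM H A Y hAH hA hYH hYA z r hz w1 a w3 hval hmin u hloop
    (r * val v w1 * val v a) rfl U hUdef hUH y y' hy' hyY t
  rw [← hBdef] at hp
  have hl := hD (z * B ^ t) hxA (r * val v w1) hPN
  have hι1 : ι 1 = 0 := by
    have h1 := hι 1 A.one_mem 1 A.one_mem
    rw [mul_one] at h1
    simpa using h1
  have hιpow : ∀ n : ℕ, ι (B ^ n) = (n : ℝ) • ι B := by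
    intro n
    induction n with
    | zero => rw [pow_zero, hι1, Nat.cast_zero, zero_smul]
    | succ n ih =>
      rw [pow_succ, hι _ (A.pow_mem hBA n) _ hBA, ih, Nat.cast_add, Nat.cast_one, add_smul,
        one_smul]
  have hιx : ι (z * B ^ t) = ι z + (t : ℝ) • ι B := by
    rw [hι _ hz _ (A.pow_mem hBA t), hιpow]
  have hz0 : 0 ≤ ‖ι z‖ := norm_nonneg _
  have ht1 : (t : ℝ) ≤ s * ‖ι z‖ := Nat.floor_le (mul_nonneg hs0 hz0)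
  have ht2 : s * ‖ι z‖ ≤ (t : ℝ) + 1 := (Nat.lt_floor_add_one _).le
  have hnorm : ‖ι (z * B ^ t)‖ ≤ (η + θ) * ‖ι z‖ + B₀ := by
    have h1 : ι (z * B ^ t) = (ι z - ‖ι z‖ • e) + ‖ι z‖ • (e + s • ι B) +
        ((t : ℝ) - s * ‖ι z‖) • ι B := by
      rw [hιx, smul_add, smul_smul, sub_smul, mul_comm s]
      abel
    have h2 : ‖‖ι z‖ • (e + s • ι B)‖ ≤ ‖ι z‖ * θ := by
      rw [norm_smul, norm_norm]
      exact mul_le_mul_of_nonneg_left hes hz0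
    have h3 : ‖((t : ℝ) - s * ‖ι z‖) • ι B‖ ≤ B₀ := by
      rw [norm_smul, Real.norm_eq_abs]
      have h4 : |(t : ℝ) - s * ‖ι z‖| ≤ 1 := abs_le.2 ⟨by linarith, by linarith⟩
      calc |(t : ℝ) - s * ‖ι z‖| * ‖ι B‖ ≤ 1 * ‖ι B‖ :=
            mul_le_mul_of_nonneg_right h4 (norm_nonneg _)
        _ ≤ B₀ := by rw [one_mul]; exact hB
    rw [h1]
    have h5 := norm_add₃_le (a := ι z - ‖ι z‖ • e) (b := ‖ι z‖ • (e + s • ι B))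
      (c := ((t : ℝ) - s * ‖ι z‖) • ι B)
    linarith
  have hlenR : ((w1 ++ a ++ w3).length : ℝ) = (fmn v Nh z : ℝ) := by rw [hlen]
  have hpR : ((w1 ++ a ++ w3).length : ℝ) ≤ 2 * (a.length : ℝ) + 2 * (len v y : ℝ) +
      (len v ((r * val v w1)⁻¹ * (z * B ^ t) * (r * val v w1)) : ℝ) := by
    exact_mod_cast hp
  have hlR : (len v ((r * val v w1)⁻¹ * (z * B ^ t) * (r * val v w1)) : ℝ) ≤
      (fmn v Nh (z * B ^ t) : ℝ) + 2 * (D0 : ℝ) := by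
    exact_mod_cast hl
  refine hR ‖ι z‖ (fmn v Nh z : ℝ) (fmn v Nh (z * B ^ t) : ℝ) ‖ι (z * B ^ t)‖ hRz hlow
    (Nat.cast_nonneg _) ?_ (Nat.cast_nonneg _) ?_ hnorm
  · rw [hlenR] at hpR hε
    linarith
  · exact (hC' _ hxA).trans (add_le_add le_rfl (le_max_left _ _))

end Pool.Agent.MorseGeo
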