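import Mathlib
import Pool.Agent.MorseGeo.Defs

set_option autoImplicit false

/-!
# Package MG1: basic facts on `Nb` and `fmn`

* `one_mem_nb` (`len_one`), `nb_left` (`x g ∈ K` implies `h x g ∈ K`), `nb_right`: if `x ∈ Nb v K R`
  then `x s ∈ Nb v K (R + len s)` (`x s (s⁻¹ g) ∈ K`, `len_mul_le`, `len_inv_le`), `nb_mono`.
* `fmn_le`: `Nat.sInf_le`; `fmn_exists`: `Nat.sInf_mem`.
* `fmn_up`: `A ≤ G`, the elements of `A` commute with the elements of `H`, `T` a finite set with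
  `∀ x ∈ N, ∃ r ∈ T, x * r⁻¹ ∈ H`. There is `D0` with `len (x⁻¹ z x) ≤ fmn v N z + 2 D0` for all
  `z ∈ A`, `x ∈ N`: `D0` = the maximum of the lengths `len (r⁻¹ r')`, `r, r' ∈ T`. Let `x₀ ∈ N` attain
  the minimum (`fmn_exists`, `N` nonempty because `x ∈ N`), `x = h r`, `x₀ = h₀ r₀`:
  `x⁻¹ z x = r⁻¹ z r = (r₀⁻¹ r)⁻¹ (r₀⁻¹ z r₀) (r₀⁻¹ r)`, `r₀⁻¹ z r₀ = x₀⁻¹ z x₀`; `len_conj_le`.
* `fmn_pos`: a conjugate of `z ≠ 1` is not `1` (`eq_one_of_len_eq_zero`).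
-/

namespace Pool.Agent.MorseGeo

open Pool.Agent.NilGeo

variable {G : Type*} [Group G] {α : Type*}

theorem one_mem_nb (v : α → G) (K : Subgroup G) (R : ℕ) : (1 : G) ∈ Nb v K R := by
  refine ⟨1, ?_, ?_⟩
  · rw [len_one]
    exact Nat.zero_le _
  · rw [mul_one]
    exact K.one_mem

theorem nb_left (v : α → G) (K : Subgroup G) (R : ℕ) {h x : G} (hh : h ∈ K)
    (hx : x ∈ Nb v K R) : h * x ∈ Nb v K R := by
  obtain ⟨g, hg, hxg⟩ := hx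
  refine ⟨g, hg, ?_⟩
  rw [mul_assoc]
  exact K.mul_mem hh hxg

theorem nb_right (v : α → G) (hsym : ∀ a, ∃ b, v b = (v a)⁻¹)
    (hsurj : ∀ g, ∃ w, val v w = g) (K : Subgroup G) (R : ℕ) {x : G} (hx : x ∈ Nb v K R) (s : G) :
    x * s ∈ Nb v K (R + len v s) := by
  obtain ⟨g, hg, hxg⟩ := hx
  refine ⟨s⁻¹ * g, ?_, ?_⟩
  · have h1 := len_mul_le v hsurj s⁻¹ g
    have h2 := len_inv_le v hsym hsurj s
    omega
  · rw [mul_assoc, mul_inv_cancel_left]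
    exact hxg

theorem nb_mono (v : α → G) (K : Subgroup G) {R R' : ℕ} (h : R ≤ R') :
    Nb v K R ⊆ Nb v K R' := by
  rintro x ⟨g, hg, hxg⟩
  exact ⟨g, hg.trans h, hxg⟩

theorem fmn_le (v : α → G) (N : Set G) (z : G) {x : G} (hx : x ∈ N) :
    fmn v N z ≤ len v (x⁻¹ * z * x) := by
  exact Nat.sInf_le ⟨x, hx, rfl⟩

theorem fmn_exists (v : α → G) (N : Set G) (hN : N.Nonempty) (z : G) :
    ∃ x ∈ N, len v (x⁻¹ * z * x) = fmn v N z := by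
  have h : {n | ∃ x ∈ N, len v (x⁻¹ * z * x) = n}.Nonempty := by
    obtain ⟨x, hx⟩ := hN
    exact ⟨_, x, hx, rfl⟩
  exact Nat.sInf_mem h

private theorem conj_eq (H A : Subgroup G) (hA : ∀ z ∈ A, ∀ h ∈ H, z * h = h * z) {z : G}
    (hz : z ∈ A) {x r : G} (hr : x * r⁻¹ ∈ H) : x⁻¹ * z * x = r⁻¹ * z * r := by
  have h1 := hA z hz _ hr
  have h2 : z * x = x * r⁻¹ * z * r := by
    rw [← h1]
    group
  calc x⁻¹ * z * x = x⁻¹ * (z * x) := by group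
    _ = x⁻¹ * (x * r⁻¹ * z * r) := by rw [h2]
    _ = r⁻¹ * z * r := by group

theorem fmn_up (v : α → G) (hsym : ∀ a, ∃ b, v b = (v a)⁻¹)
    (hsurj : ∀ g, ∃ w, val v w = g) (H A : Subgroup G)
    (hA : ∀ z ∈ A, ∀ h ∈ H, z * h = h * z) (N : Set G) (T : Finset G)
    (hT : ∀ x ∈ N, ∃ r ∈ T, x * r⁻¹ ∈ H) :
    ∃ D0 : ℕ, ∀ z ∈ A, ∀ x ∈ N, len v (x⁻¹ * z * x) ≤ fmn v N z + 2 * D0 := by
  refine ⟨(T ×ˢ T).sup fun p => len v (p.1⁻¹ * p.2), fun z hz x hx => ?_⟩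
  obtain ⟨x₀, hx₀, h0⟩ := fmn_exists v N ⟨x, hx⟩ z
  obtain ⟨r, hr, hxr⟩ := hT x hx
  obtain ⟨r₀, hr₀, hxr₀⟩ := hT x₀ hx₀
  have h1 : len v (r₀⁻¹ * r) ≤ (T ×ˢ T).sup fun p => len v (p.1⁻¹ * p.2) :=
    Finset.le_sup (f := fun p : G × G => len v (p.1⁻¹ * p.2))
      (Finset.mem_product.2 ⟨hr₀, hr⟩ : ((r₀, r) : G × G) ∈ T ×ˢ T)
  have h2 : x⁻¹ * z * x = (r₀⁻¹ * r)⁻¹ * (x₀⁻¹ * z * x₀) * (r₀⁻¹ * r) := by
    rw [conj_eq H A hA hz hxr, conj_eq H A hA hz hxr₀]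
    group
  have h3 := len_conj_le v hsym hsurj (r₀⁻¹ * r) (x₀⁻¹ * z * x₀)
  rw [← h2] at h3
  omega

theorem fmn_pos (v : α → G) (hsurj : ∀ g, ∃ w, val v w = g) (N : Set G) (hN : N.Nonempty)
    {z : G} (hz : z ≠ 1) : 1 ≤ fmn v N z := by
  obtain ⟨x, -, h⟩ := fmn_exists v N hN z
  rw [← h]
  by_contra h1
  have h2 := eq_one_of_len_eq_zero v hsurj (show len v (x⁻¹ * z * x) = 0 by omega)
  apply hz
  calc z = x * (x⁻¹ * z * x) * x⁻¹ := by group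
    _ = 1 := by rw [h2, mul_one, mul_inv_cancel]

end Pool.Agent.MorseGeo
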