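import Mathlib
import Pool.Agent.MorseGeo.Reps

set_option autoImplicit false

/-!
# Package MG2: representatives, geodesics between points of `K`, finite generation

* `nb_reps`: let `H ≤ K` be of finite index in `K` (`(H.subgroupOf K).FiniteIndex`). There is a
  finite set `T` such that every `x ∈ Nb v K R` is in `H r` for some `r ∈ T`: `x g = h ∈ K` with
  `len g ≤ R`; `h = h₀ c` with `h₀ ∈ H` and `c` in a finite set of representatives of the right
  cosets of `H` in `K` (e.g. from the finite type `↥K ⧸ H.subgroupOf K` applied to `h⁻¹`, and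
  inverses of `Quotient.out`); `x = h₀ (c g⁻¹)`; the set of all `c g⁻¹`, `len g ≤ R`, is finite
  (`ball_finite`; image of a product of finite sets).
* `nb_geo`: a geodesic word with value in `K` stays in `Nb v K R`: all subwords of a geodesic word
  are geodesic, so `|s| = len (V s) ≤ 6 len (V s)` (`geo_iff`; for `u1 ++ s ++ u3 = w`,
  `|w| = len (V w) ≤ |u1| + len (V s) + |u3|`, `len_mul_le`, `len_le`).
* `nb_fg`: `K` is finitely generated, by the finite set `{k ∈ K | len k ≤ 2 R + 1}`: for `z ∈ K` take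
  a geodesic word `w` (`len_exists`, `geo_iff`); claim by induction on the prefix `p` of `w`
  (`List.reverseRecOn`): there is `g` with `len g ≤ R` and `V p * g ∈ C`, the closure; start `g = 1`;
  for `p ++ [a]`: there is `g'` with `len g' ≤ R`, `V p * v a * g' ∈ K` (`nb_geo`), and
  `(V p * g)⁻¹ * (V p * v a * g') = g⁻¹ * v a * g' ∈ K` has length at most `2 R + 1`. At the end
  `V w * g ∈ C`, `V w = z ∈ K`, so `g ∈ K`, `len g ≤ R`, `g ∈ C`, `z ∈ C`.
-/

namespace Pool.Agent.MorseGeo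

open Pool.Agent.NilGeo

variable {G : Type*} [Group G] {α : Type*}

theorem nb_reps [Finite α] (v : α → G) (hsurj : ∀ g, ∃ w, val v w = g) (K H : Subgroup G)
    (hHK : H ≤ K) (hfi : (H.subgroupOf K).FiniteIndex) (R : ℕ) :
    ∃ T : Finset G, ∀ x ∈ Nb v K R, ∃ r ∈ T, x * r⁻¹ ∈ H := by
  classical
  have hfin : Finite (↥K ⧸ H.subgroupOf K) := Subgroup.finite_quotient_of_finiteIndex
  have hF : ((Set.univ : Set (↥K ⧸ H.subgroupOf K)) ×ˢ {g : G | len v g ≤ R}).Finite :=
    Set.finite_univ.prod (ball_finite v hsurj R)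
  refine ⟨(hF.image fun q => ((q.1.out : ↥K) : G)⁻¹ * q.2⁻¹).toFinset, ?_⟩
  rintro x ⟨g, hg, hx⟩
  set q : ↥K ⧸ H.subgroupOf K := ((⟨x * g, hx⟩⁻¹ : ↥K) : ↥K ⧸ H.subgroupOf K) with hq
  refine ⟨((q.out : ↥K) : G)⁻¹ * g⁻¹, ?_, ?_⟩
  · rw [Set.Finite.mem_toFinset]
    exact ⟨(q, g), ⟨Set.mem_univ _, hg⟩, rfl⟩
  · have h1 : ((q.out : ↥K) : ↥K ⧸ H.subgroupOf K) = ((⟨x * g, hx⟩⁻¹ : ↥K) : ↥K ⧸ H.subgroupOf K) := by
      rw [QuotientGroup.out_eq', hq]
    have h2 := QuotientGroup.eq.1 h1
    rw [Subgroup.mem_subgroupOf] at h2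
    have h3 := H.inv_mem h2
    have h4 : ((((q.out)⁻¹ * (⟨x * g, hx⟩⁻¹ : ↥K) : ↥K) : G))⁻¹ =
        x * (((q.out : ↥K) : G)⁻¹ * g⁻¹)⁻¹ := by
      push_cast
      group
    rw [h4] at h3
    exact h3

theorem nb_geo (v : α → G) (hsurj : ∀ g, ∃ w, val v w = g) (K : Subgroup G) (R : ℕ)
    (hQC : QC v K R) (w : List α) (hw : val v w ∈ K) (hgeo : Geo v w) (p s : List α)
    (hp : p ++ s = w) : val v p ∈ Nb v K R := by
  refine hQC w hw ?_ p s hp
  intro u1 t u3 hu
  obtain ⟨t', ht', hl⟩ := len_exists v hsurj (val v t)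
  have h1 := hgeo (u1 ++ t' ++ u3) (by
    rw [← hu, val_append, val_append, val_append, val_append, ht'])
  rw [← hu] at h1
  simp only [List.length_append] at h1
  omega

theorem nb_fg [Finite α] (v : α → G) (hsym : ∀ a, ∃ b, v b = (v a)⁻¹)
    (hsurj : ∀ g, ∃ w, val v w = g) (K : Subgroup G) (R : ℕ) (hQC : QC v K R) : K.FG := by
  set S : Set G := {k | k ∈ K ∧ len v k ≤ 2 * R + 1} with hS
  have hSfin : S.Finite := (ball_finite v hsurj (2 * R + 1)).subset fun k hk => hk.2
  have hle : Subgroup.closure S ≤ K := (Subgroup.closure_le K).2 fun k hk => hk.1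
  refine (Subgroup.fg_iff K).2 ⟨S, le_antisymm hle ?_, hSfin⟩
  intro z hz
  obtain ⟨w, hw, hl⟩ := len_exists v hsurj z
  have hgeo : Geo v w := (geo_iff v hsurj w).2 (by rw [hw, hl])
  have hwK : val v w ∈ K := by rw [hw]; exact hz
  have claim : ∀ p s : List α, p ++ s = w →
      ∃ g, len v g ≤ R ∧ val v p * g ∈ Subgroup.closure S := by
    intro p
    induction p using List.reverseRecOn with
    | nil =>
      intro s _
      refine ⟨1, ?_, ?_⟩
      · rw [len_one]
        exact Nat.zero_le R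
      · rw [val_nil, mul_one]
        exact one_mem _
    | append_singleton p a ih =>
      intro s hs
      obtain ⟨g, hg, hgC⟩ := ih (a :: s) (by rw [← hs]; simp)
      obtain ⟨g', hg', hgK⟩ := nb_geo v hsurj K R hQC w hwK hgeo (p ++ [a]) s hs
      refine ⟨g', hg', ?_⟩
      have e1 : val v (p ++ [a]) = val v p * v a := by rw [val_append, val_singleton]
      rw [e1] at hgK ⊢
      have e2 : val v p * v a * g' = val v p * g * (g⁻¹ * v a * g') := by group
      have h3 : g⁻¹ * v a * g' ∈ K := by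
        rw [e2] at hgK
        exact (K.mul_mem_cancel_left (hle hgC)).1 hgK
      have h4 : len v (g⁻¹ * v a * g') ≤ 2 * R + 1 := by
        have i1 := len_mul_le v hsurj (g⁻¹ * v a) g'
        have i2 := len_mul_le v hsurj g⁻¹ (v a)
        have i3 := len_inv_le v hsym hsurj g
        have i4 := len_letter v a
        omega
      rw [e2]
      exact mul_mem hgC (Subgroup.subset_closure ⟨h3, h4⟩)
  obtain ⟨g, hg, hgC⟩ := claim w [] (by simp)
  rw [hw] at hgC
  have h1 : g ∈ K := (K.mul_mem_cancel_left hz).1 (hle hgC)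
  have h2 : g ∈ Subgroup.closure S := Subgroup.subset_closure ⟨h1, by omega⟩
  exact ((Subgroup.closure S).mul_mem_cancel_right h2).1 hgC

end Pool.Agent.MorseGeo
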