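import Mathlib
import Pool.Agent.NilGeo.Setup

set_option autoImplicit false

/-!
# Package MG13: the setup inside the subgroup `K`

`NilGeo.setup` for the group `↥K` (`Group.FG ↥K` from `K.FG`): either an abelian subgroup of finite
index of `↥K`, or `H' ≤ ↥K` normal of finite index, finitely generated, with
`H'.lowerCentralSeries (k + 1) = ⊥`, `H'.lowerCentralSeries k` infinite. Put `H = H'.map K.subtype`:
`H ≤ K` (`Subgroup.map_subtype_le`), `H.subgroupOf K = H'` (`Subgroup.comap_map_eq_self_of_injective`,
`Subgroup.subgroupOf_map_subtype`-type lemma), `H.FG` (`Subgroup.FG.map` or map the generators),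
`H.lowerCentralSeries n = (H'.lowerCentralSeries n).map K.subtype` (`Subgroup.map_lowerCentralSeries`),
the image of an infinite set under an injective map is infinite (`Set.Finite.preimage`,
`Set.InjOn`), the image of `⊥` is `⊥` (`Subgroup.map_bot`).
-/

namespace Pool.Agent.MorseGeo

open Pool.Agent.NilGeo

theorem setupM {G : Type*} [Group G] (K : Subgroup G) (hfg : K.FG)
    (hvn : Group.IsVirtuallyNilpotent ↥K) :
    (∃ A : Subgroup ↥K, A.FiniteIndex ∧ ∀ a ∈ A, ∀ b ∈ A, a * b = b * a) ∨
    ∃ (H : Subgroup G) (k : ℕ), H ≤ K ∧ (H.subgroupOf K).FiniteIndex ∧ H.FG ∧ 1 ≤ k ∧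
      H.lowerCentralSeries (k + 1) = ⊥ ∧ ¬ (H.lowerCentralSeries k : Set G).Finite := by
  have hfg' : Group.FG ↥K := (Group.fg_iff_subgroup_fg K).2 hfg
  rcases setup ↥K hfg' hvn with h | ⟨H', k, hn, hfi, hHfg, hk, hbot, hinf⟩
  · exact Or.inl h
  · have hinj : Function.Injective K.subtype := K.subtype_injective
    refine Or.inr ⟨H'.map K.subtype, k, Subgroup.map_subtype_le H', ?_, ?_, hk, ?_, ?_⟩
    · have h1 : (H'.map K.subtype).subgroupOf K = H' :=
        Subgroup.comap_map_eq_self_of_injective hinj H'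
      rw [h1]
      exact hfi
    · classical
      obtain ⟨S, hS⟩ := hHfg
      exact ⟨S.image K.subtype, by rw [Finset.coe_image, ← MonoidHom.map_closure, hS]⟩
    · rw [← Subgroup.map_lowerCentralSeries, hbot, Subgroup.map_bot]
    · rw [← Subgroup.map_lowerCentralSeries]
      intro hf
      refine hinf ?_
      have h2 := hf.preimage (f := K.subtype) hinj.injOn
      rwa [Subgroup.coe_map, Set.preimage_image_eq _ hinj] at h2

end Pool.Agent.MorseGeo
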