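import Mathlib

set_option autoImplicit false

/-! # Package MG3: subwords of a concatenation of three words

Case analysis with `List.append_eq_append_iff` (twice): the beginning of `s` is in `A`, `B` or `C`,
and so is its end. (Empty words are allowed, so the cases may overlap; any proof will do.) For
instance: `u1 ++ (s ++ u3) = A ++ (B ++ C)`. Either `A = u1 ++ t`, `s ++ u3 = t ++ (B ++ C)`, or
`u1 = A ++ t`, `B ++ C = t ++ (s ++ u3)`. In the first case either `t = s ++ t'` (`s` inside `A`) or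
`s = t ++ t'`, `B ++ C = t' ++ u3`: then either `B = t' ++ b2` (the case `s = a2 ++ b1`, `a2 = t`,
`b1 = t'`) or `t' = B ++ c1`, `C = c1 ++ u3` (the case `s = a2 ++ B ++ c1`). In the second case
either `B = t ++ t'`, `s ++ u3 = t' ++ C`: `t' = s ++ t''` (`s` inside `B`) or `s = t' ++ c1`,
`C = c1 ++ u3` (the case `s = b2 ++ c1`); or `t = B ++ t'`, `C = t' ++ (s ++ u3)` (`s` inside `C`).
-/

namespace Pool.Agent.MorseGeo

variable {α : Type*}

theorem split3 (A B C u1 s u3 : List α) (h : u1 ++ s ++ u3 = A ++ B ++ C) :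
    (∃ p q, A = p ++ s ++ q) ∨ (∃ p q, B = p ++ s ++ q) ∨ (∃ p q, C = p ++ s ++ q) ∨
    (∃ a1 a2 b1 b2, A = a1 ++ a2 ∧ B = b1 ++ b2 ∧ s = a2 ++ b1) ∨
    (∃ b1 b2 c1 c2, B = b1 ++ b2 ∧ C = c1 ++ c2 ∧ s = b2 ++ c1) ∨
    (∃ a1 a2 c1 c2, A = a1 ++ a2 ∧ C = c1 ++ c2 ∧ s = a2 ++ B ++ c1) := by
  rw [List.append_assoc, List.append_assoc, List.append_eq_append_iff] at h
  rcases h with ⟨t, h1, h2⟩ | ⟨t, h1, h2⟩
  · rw [List.append_eq_append_iff] at h2
    rcases h2 with ⟨t', h3, h4⟩ | ⟨t', h3, h4⟩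
    · left
      exact ⟨u1, t', by rw [h1, h3, List.append_assoc]⟩
    · rw [List.append_eq_append_iff] at h4
      rcases h4 with ⟨c, h5, h6⟩ | ⟨c, h5, h6⟩
      · right; right; right; right; right
        exact ⟨u1, t, c, u3, h1, h6, by rw [h3, h5, List.append_assoc]⟩
      · right; right; right; left
        exact ⟨u1, t, t', c, h1, h5, h3⟩
  · rw [List.append_eq_append_iff] at h2
    rcases h2 with ⟨t', h3, h4⟩ | ⟨t', h3, h4⟩
    · right; right; left
      exact ⟨t', u3, by rw [h4, List.append_assoc]⟩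
    · rw [List.append_eq_append_iff] at h4
      rcases h4 with ⟨c, h5, h6⟩ | ⟨c, h5, h6⟩
      · right; left
        exact ⟨t, c, by rw [h3, h5, List.append_assoc]⟩
      · right; right; right; right; left
        exact ⟨t, t', c, u3, h3, h6, h5⟩

end Pool.Agent.MorseGeo
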