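import Mathlib
import Pool.Agent.MorseGeo.Reps
import Pool.Agent.MorseGeo.Split

set_option autoImplicit false

/-!
# Package MG4: the tube lemma

Notation: `V = val v`, `N = Nb v K R`, `F = fmn v N z`, `Nb n = Nb v K n`. For `z ∈ K` with `R ≤ F`
there are `x₀ ∈ N` and a word `w` with `V w = x₀⁻¹ z x₀`, `|w| = F`, such that `x₀ * V p ∈ N` for all
prefixes `p` of `w`.

Choice of `x₀`: the set of pairs `(x, n)` with `x ∈ N`, `len (x⁻¹ z x) = F`, `x ∈ Nb n` is not empty
(`fmn_exists`, `one_mem_nb`); take one with `n = D` minimal (`Nat.find` / `WellFounded.min`). Then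
`D ≤ R`, and (MIN): if `x ∈ N`, `len (x⁻¹ z x) = F` and `x ∈ Nb n` then `D ≤ n`. Let `w` be a word
with `V w = x₀⁻¹ z x₀`, `|w| = F` (`len_exists`). Let `g` be such that `len g ≤ D`, `x₀ g ∈ K`; then
`len g = D` by (MIN) (`x₀ ∈ Nb (len g)`). Let `y` be a word with `V y = g`, `|y| = D`. Choose inverse
letters (`choose inv hinv using hsym`) and put `bar c = (c.map inv).reverse`, so `V (bar c) = (V c)⁻¹`,
`|bar c| = |c|`, `bar (c ++ d) = bar d ++ bar c`. Let `u = bar y ++ w ++ y`. Its value is
`g⁻¹ x₀⁻¹ z x₀ g = (x₀ g)⁻¹ z (x₀ g) ∈ K`.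

Facts.
(A) `y = c ++ d`: `x₀ V c ∈ Nb |d|`, `|d| = D - |c|` (`x₀ V c V d = x₀ g ∈ K`, `len_le`). If
    `x₀ V c ∈ Nb n` then `D ≤ n + |c|` (`nb_right` with `s = (V c)⁻¹`, and (MIN) for `x₀`).
(B) `w = m ++ m'`: if `x₀ V m ∈ Nb n` then `D ≤ n`: if `n < D ≤ R` then `t = x₀ V m ∈ N` (`nb_mono`),
    `t⁻¹ z t = (V m)⁻¹ (V m V m') V m = V (m' ++ m)` has length at most `|w| = F` and at least `F`
    (`fmn_le`), so (MIN) gives `D ≤ n`.
(C) a subword `s` of a word `u'` with `len (V u') = |u'|` has `|s| ≤ len (V s)` (`len_mul_le`); this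
    applies to `w`, `y`, `bar y` (`len g⁻¹ = len g`).

Claim: `|s| ≤ 6 len (V s)` for all `u1 ++ s ++ u3 = bar y ++ w ++ y`. By the lemma `split3`
(file `Split.lean`) there are these cases (`L = len (V s)`):
(i) `s` is a subword of `bar y`, `w` or `y`: (C).
(ii) `s = bar c ++ m`, `y = c ++ d`, `w = m ++ m'` (a suffix of `bar y` is `bar c` for a prefix `c` of
    `y`). `x₀ V c * V s = x₀ V m`, so by (A) and `nb_right` `x₀ V m ∈ Nb (D - |c| + L)`, and (B)
    gives `|c| ≤ L`. `|m| ≤ len (V m) ≤ |c| + L` by (C). So `|s| = |c| + |m| ≤ 3 L`.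
(iii) `s = m' ++ c`, `w = m ++ m'`, `y = c ++ d`. `x₀ V m * V s = x₀ V w V c = z x₀ V c ∈ Nb (D - |c|)`
    (`nb_left`), so `x₀ V m ∈ Nb (D - |c| + L)` and `|c| ≤ L` by (B); `|m'| ≤ len (V m') ≤ L + |c|`.
(iv) `s = bar c ++ w ++ c'`, `y = c ++ d = c' ++ d'`. Let `y₁ = x₀ V c ∈ Nb (D - |c|) ⊆ N`;
    `y₁ * V s = z x₀ V c'`. One of `c, c'` is a prefix of the other (`List.prefix_of_prefix_length_le`
    or `append_eq_append_iff`), so `len ((V c')⁻¹ V c) ≤ E := ||c| - |c'||` and
    `y₁⁻¹ z y₁ = (V c)⁻¹ V w V c = V s * ((V c')⁻¹ V c)`, whence `F ≤ L + E` (`fmn_le`).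
    `E ≤ L`: if `|c| ≥ |c'|`: `x₀ V c' = z⁻¹ y₁ V s ∈ Nb (D - |c| + L)`, so `D ≤ D - |c| + L + |c'|` by
    (A); if `|c'| ≥ |c|`: `y₁ = (z x₀ V c') (V s)⁻¹ ∈ Nb (D - |c'| + L)`, so `|c'| ≤ L + |c|`.
    So `F ≤ 2 L` and `|s| = |c| + F + |c'| ≤ F + 2 D ≤ 3 F ≤ 6 L`, since `D ≤ R ≤ F`.

`hQC` for `u`: every prefix `p'` of `u` has `V p' ∈ N`. For a prefix `p` of `w` take
`p' = bar y ++ p`: `V p' = g⁻¹ V p`, so `x₀ V p = (x₀ g) V p' ∈ N` (`nb_left`).
-/

namespace Pool.Agent.MorseGeo

open Pool.Agent.NilGeo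

variable {G : Type*} [Group G] {α : Type*}

private theorem sub_le (v : α → G) (hsurj : ∀ g, ∃ w, val v w = g) {u : List α}
    (hu : u.length ≤ len v (val v u)) {p s q : List α} (h : u = p ++ s ++ q) :
    s.length ≤ len v (val v s) := by
  rw [h, val_append, val_append, List.length_append, List.length_append] at hu
  have h1 := len_mul_le v hsurj (val v p * val v s) (val v q)
  have h2 := len_mul_le v hsurj (val v p) (val v s)
  have h3 := len_le v (w := p) rfl
  have h4 := len_le v (w := q) rfl
  omega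

/-- The formal inverse of a word. -/
private def bar (inv : α → α) (c : List α) : List α := (c.map inv).reverse

private theorem bar_length (inv : α → α) (c : List α) : (bar inv c).length = c.length := by
  simp [bar]

private theorem val_bar (v : α → G) (inv : α → α) (hinv : ∀ a, v (inv a) = (v a)⁻¹)
    (c : List α) : val v (bar inv c) = (val v c)⁻¹ := by
  induction c with
  | nil => simp [bar]
  | cons a c ih =>
    have h1 : bar inv (a :: c) = bar inv c ++ [inv a] := by simp [bar]
    rw [h1, val_append, ih, val_singleton, hinv, val_cons, mul_inv_rev]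

private theorem bar_split (inv : α → α) {y a1 a2 : List α} (h : bar inv y = a1 ++ a2) :
    ∃ c d, y = c ++ d ∧ a2 = bar inv c := by
  have h1 : y.map inv = a2.reverse ++ a1.reverse := by
    rw [← List.reverse_append, ← h, bar, List.reverse_reverse]
  obtain ⟨c, d, h2, h3, -⟩ := List.map_eq_append_iff.1 h1
  exact ⟨c, d, h2, by rw [bar, h3, List.reverse_reverse]⟩

theorem tube (v : α → G) (hsym : ∀ a, ∃ b, v b = (v a)⁻¹)
    (hsurj : ∀ g, ∃ w, val v w = g) (K : Subgroup G) (R : ℕ) (hQC : QC v K R) (z : G)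
    (hz : z ∈ K) (hR : R ≤ fmn v (Nb v K R) z) :
    ∃ x₀ ∈ Nb v K R, ∃ w : List α, val v w = x₀⁻¹ * z * x₀ ∧
      w.length = fmn v (Nb v K R) z ∧
      ∀ p s : List α, p ++ s = w → x₀ * val v p ∈ Nb v K R := by
  classical
  obtain ⟨x₁, hx₁, hx₁F⟩ := fmn_exists v (Nb v K R) ⟨1, one_mem_nb v K R⟩ z
  set F := fmn v (Nb v K R) z with hF
  have hP : ∃ n, ∃ x ∈ Nb v K R, len v (x⁻¹ * z * x) = F ∧ x ∈ Nb v K n :=
    ⟨R, x₁, hx₁, hx₁F, hx₁⟩
  obtain ⟨x₀, hx₀N, hx₀F, hx₀D⟩ := Nat.find_spec hP
  have hmin : ∀ n x, x ∈ Nb v K R → len v (x⁻¹ * z * x) = F → x ∈ Nb v K n →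
      Nat.find hP ≤ n := fun n x h1 h2 h3 => Nat.find_min' hP ⟨x, h1, h2, h3⟩
  generalize Nat.find hP = D at hx₀D hmin
  have hDR : D ≤ R := hmin R x₁ hx₁ hx₁F hx₁
  obtain ⟨g, hgD, hgK⟩ := hx₀D
  have hglen : len v g = D := le_antisymm hgD (hmin _ x₀ hx₀N hx₀F ⟨g, le_rfl, hgK⟩)
  obtain ⟨w, hw, hwl⟩ := len_exists v hsurj (x₀⁻¹ * z * x₀)
  rw [hx₀F] at hwl
  obtain ⟨y, hy, hyl⟩ := len_exists v hsurj g
  rw [hglen] at hyl
  have hinvlen : ∀ t : G, len v t⁻¹ ≤ len v t := len_inv_le v hsym hsurj
  choose inv hinv using hsym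
  have hsym' : ∀ a, ∃ b, v b = (v a)⁻¹ := fun a => ⟨inv a, hinv a⟩
  have hx₀w : x₀ * val v w = z * x₀ := by
    rw [hw]
    group
  -- (A)
  have hA0 : ∀ c d, y = c ++ d → c.length ≤ D := by
    intro c d h
    rw [← hyl, h, List.length_append]
    omega
  have hA1 : ∀ c d, y = c ++ d → x₀ * val v c ∈ Nb v K (D - c.length) := by
    intro c d h
    refine ⟨val v d, ?_, ?_⟩
    · refine (len_le v (w := d) rfl).trans ?_
      rw [← hyl, h, List.length_append]
      omega
    · rw [mul_assoc, ← val_append, ← h, hy]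
      exact hgK
  have hA2 : ∀ (c : List α) (n : ℕ), x₀ * val v c ∈ Nb v K n → D ≤ n + c.length := by
    intro c n h
    have h1 := nb_right v hsym' hsurj K n h (val v c)⁻¹
    rw [mul_inv_cancel_right] at h1
    have h2 := hmin _ x₀ hx₀N hx₀F h1
    have h3 := hinvlen (val v c)
    have h4 := len_le v (w := c) rfl
    omega
  -- (B)
  have hB : ∀ m m' n, w = m ++ m' → x₀ * val v m ∈ Nb v K n → D ≤ n := by
    intro m m' n h h1
    by_contra hn
    rw [not_le] at hn
    have h2 : x₀ * val v m ∈ Nb v K R := nb_mono v K (by omega) h1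
    have h3 : (x₀ * val v m)⁻¹ * z * (x₀ * val v m) = val v (m' ++ m) := by
      have h4 : (x₀ * val v m)⁻¹ * z * (x₀ * val v m) =
          (val v m)⁻¹ * (x₀⁻¹ * z * x₀) * val v m := by group
      rw [h4, ← hw, h, val_append, val_append]
      group
    have h5 := fmn_le v (Nb v K R) z h2
    rw [← hF] at h5
    have h6 : len v ((x₀ * val v m)⁻¹ * z * (x₀ * val v m)) ≤ F := by
      rw [h3]
      refine (len_le v (w := m' ++ m) rfl).trans ?_
      rw [← hwl, h, List.length_append, List.length_append]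
      omega
    have h7 := hmin n _ h2 (le_antisymm h6 h5) h1
    omega
  -- (C)
  have hwg : w.length ≤ len v (val v w) := by rw [hw, hx₀F, hwl]
  have hyg : y.length ≤ len v (val v y) := by rw [hy, hglen, hyl]
  have hbg : (bar inv y).length ≤ len v (val v (bar inv y)) := by
    rw [bar_length, val_bar v inv hinv, hy, hyl, ← hglen]
    have h1 := hinvlen g⁻¹
    rwa [inv_inv] at h1
  have key : ∀ u1 s u3 : List α, u1 ++ s ++ u3 = bar inv y ++ w ++ y →
      s.length ≤ 6 * len v (val v s) := by
    intro u1 s u3 hs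
    rcases split3 (bar inv y) w y u1 s u3 hs with ⟨p, q, h⟩ | ⟨p, q, h⟩ | ⟨p, q, h⟩ |
      ⟨a1, a2, m, m', h1, h2, h3⟩ | ⟨m, m', c, d, h1, h2, h3⟩ | ⟨a1, a2, c', d', h1, h2, h3⟩
    · have := sub_le v hsurj hbg h
      omega
    · have := sub_le v hsurj hwg h
      omega
    · have := sub_le v hsurj hyg h
      omega
    · obtain ⟨c, d, hc, rfl⟩ := bar_split inv h1
      have hVs : val v s = (val v c)⁻¹ * val v m := by
        rw [h3, val_append, val_bar v inv hinv]
      have e1 := nb_right v hsym' hsurj K _ (hA1 c d hc) (val v s)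
      have e2 : x₀ * val v c * val v s = x₀ * val v m := by
        rw [hVs]
        group
      rw [e2] at e1
      have e3 := hB m m' _ h2 e1
      have e4 := hA0 c d hc
      have e5 : m.length ≤ len v (val v m) :=
        sub_le v hsurj hwg (p := []) (q := m') (by rw [h2, List.nil_append])
      have e6 : val v m = val v c * val v s := by
        rw [hVs]
        group
      have e7 := len_mul_le v hsurj (val v c) (val v s)
      rw [← e6] at e7
      have e8 := len_le v (w := c) rfl
      have e9 : s.length = c.length + m.length := by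
        rw [h3, List.length_append, bar_length]
      omega
    · have hVs : val v s = val v m' * val v c := by
        rw [h3, val_append]
      have e1 := nb_right v hsym' hsurj K _ (nb_left v K _ hz (hA1 c d h2)) (val v s)⁻¹
      have e2 : z * (x₀ * val v c) * (val v s)⁻¹ = x₀ * val v m := by
        rw [← mul_assoc, ← hx₀w, h1, val_append, hVs]
        group
      rw [e2] at e1
      have e3 := hB m m' _ h1 e1
      have e4 := hA0 c d h2
      have e5 : m'.length ≤ len v (val v m') :=
        sub_le v hsurj hwg (p := m) (q := []) (by rw [h1, List.append_nil])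
      have e6 : val v m' = val v s * (val v c)⁻¹ := by
        rw [hVs]
        group
      have e7 := len_mul_le v hsurj (val v s) (val v c)⁻¹
      rw [← e6] at e7
      have e8 := len_le v (w := c) rfl
      have e9 : s.length = m'.length + c.length := by
        rw [h3, List.length_append]
      have e10 := hinvlen (val v c)
      have e11 := hinvlen (val v s)
      omega
    · obtain ⟨c, d, hc, rfl⟩ := bar_split inv h1
      have hVs : val v s = (val v c)⁻¹ * val v w * val v c' := by
        rw [h3, val_append, val_append, val_bar v inv hinv]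
      have a0 := hA0 c d hc
      have a0' := hA0 c' d' h2
      have a1 := hA1 c d hc
      have a1' := hA1 c' d' h2
      have e1 : x₀ * val v c * val v s = z * (x₀ * val v c') := by
        rw [hVs]
        have : x₀ * val v c * ((val v c)⁻¹ * val v w * val v c') =
            x₀ * val v w * val v c' := by group
        rw [this, hx₀w, mul_assoc]
      have hN : x₀ * val v c ∈ Nb v K R := nb_mono v K (by omega) a1
      have e2 := fmn_le v (Nb v K R) z hN
      rw [← hF] at e2
      have e3 : (x₀ * val v c)⁻¹ * z * (x₀ * val v c) =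
          val v s * ((val v c')⁻¹ * val v c) := by
        have h4 : (x₀ * val v c)⁻¹ * z * (x₀ * val v c) =
            (val v c)⁻¹ * (x₀⁻¹ * z * x₀) * val v c := by group
        rw [h4, ← hw, hVs]
        group
      rw [e3] at e2
      have e4 := len_mul_le v hsurj (val v s) ((val v c')⁻¹ * val v c)
      have e5 : x₀ * val v c' ∈ Nb v K (D - c.length + len v (val v s)) := by
        have h5 := nb_right v hsym' hsurj K _ a1 (val v s)
        have h6 := nb_left v K _ (inv_mem hz) h5
        rwa [e1, inv_mul_cancel_left] at h6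
      have e6 : x₀ * val v c ∈ Nb v K (D - c'.length + len v (val v s)⁻¹) := by
        have h5 := nb_right v hsym' hsurj K _ (nb_left v K _ hz a1') (val v s)⁻¹
        rwa [← e1, mul_inv_cancel_right] at h5
      have e7 := hA2 c' _ e5
      have e8 := hA2 c _ e6
      have e9 := hinvlen (val v s)
      have e10 : len v ((val v c')⁻¹ * val v c) ≤ len v (val v s) := by
        have h7 : c ++ d = c' ++ d' := by rw [← hc, h2]
        rcases List.append_eq_append_iff.1 h7 with ⟨e, h8, -⟩ | ⟨e, h8, -⟩
        · have h9 : (val v c')⁻¹ * val v c = (val v e)⁻¹ := by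
            rw [h8, val_append]
            group
          rw [h9]
          have h10 := hinvlen (val v e)
          have h11 := len_le v (w := e) rfl
          have h12 : c'.length = c.length + e.length := by rw [h8, List.length_append]
          omega
        · have h9 : (val v c')⁻¹ * val v c = val v e := by
            rw [h8, val_append]
            group
          rw [h9]
          have h11 := len_le v (w := e) rfl
          have h12 : c.length = c'.length + e.length := by rw [h8, List.length_append]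
          omega
      have e11 : s.length = c.length + w.length + c'.length := by
        rw [h3, List.length_append, List.length_append, bar_length]
      omega
  have hu : val v (bar inv y ++ w ++ y) ∈ K := by
    rw [val_append, val_append, val_bar v inv hinv, hy, hw]
    have h1 : g⁻¹ * (x₀⁻¹ * z * x₀) * g = (x₀ * g)⁻¹ * z * (x₀ * g) := by group
    rw [h1]
    exact mul_mem (mul_mem (inv_mem hgK) hz) hgK
  refine ⟨x₀, hx₀N, w, hw, hwl, fun p s hps => ?_⟩
  have h1 := hQC _ hu key (bar inv y ++ p) (s ++ y) (by rw [← hps]; simp)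
  rw [val_append, val_bar v inv hinv, hy] at h1
  have h2 := nb_left v K _ hgK h1
  rwa [mul_assoc, mul_inv_cancel_left] at h2

end Pool.Agent.MorseGeo
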