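import Mathlib
import Pool.Agent.MorseGeo.RepsB
import Pool.Agent.MorseGeo.Tube
import Pool.Agent.MorseGeo.ChainM
import Pool.Agent.MorseGeo.Bounds
import Pool.Agent.MorseGeo.GamM
import Pool.Agent.MorseGeo.NoBadM
import Pool.Agent.MorseGeo.SetupM
import Pool.Agent.NilGeo.DSub
import Pool.Agent.NilGeo.Coord
import Pool.Agent.NilGeo.Near
import Pool.Agent.NilGeo.Gam

set_option autoImplicit false

/-!
# Final assembly: virtually nilpotent Morse subgroups of groups with regular geodesics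
-/

open scoped InnerProductSpace commutatorElement

namespace Pool.Agent.MorseGeo

open Pool.Agent.NilGeo

variable {G : Type*} [Group G] {α : Type*}

/-- The case of a subgroup `H` of finite index in `K` with infinite last term of the lower central
series of index `k ≥ 1` is contradictory. -/
theorem contraM [Finite α] (v : α → G) (hsym : ∀ a, ∃ b, v b = (v a)⁻¹)
    (hsurj : ∀ g, ∃ w, val v w = g) {σ : Type*} [Fintype σ] (M : DFA α σ)
    (hM : ∀ w, M.eval w ∈ M.accept ↔ Geo v w) (K : Subgroup G) (R : ℕ) (hQC : QC v K R)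
    (H : Subgroup G) (hHK : H ≤ K) (hfi : (H.subgroupOf K).FiniteIndex) (hfg : H.FG) (k : ℕ)
    (hk : 1 ≤ k) (hbot : H.lowerCentralSeries (k + 1) = ⊥)
    (hinf : ¬ (H.lowerCentralSeries k : Set G).Finite) : False := by
  classical
  set A : Subgroup G := H.lowerCentralSeries k with hAdef
  set Y : Subgroup G := H.lowerCentralSeries (k - 1) with hYdef
  have hAH : A ≤ H := Subgroup.lowerCentralSeries_le_self H k
  have hYH : Y ≤ H := Subgroup.lowerCentralSeries_le_self H (k - 1)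
  have hYn : ∀ h ∈ H, ∀ y ∈ Y, h * y * h⁻¹ ∈ Y := by
    intro h hh y hy
    have h1 := Subgroup.self_le_normalizer_lowerCentralSeries H (k - 1) hh
    exact (Subgroup.mem_normalizer_iff.1 h1 y).1 hy
  have hA : ∀ z ∈ A, ∀ h ∈ H, z * h = h * z := by
    intro z hz h hh
    have h1 : ⁅z, h⁆ ∈ H.lowerCentralSeries (k + 1) :=
      Subgroup.commutator_mem_commutator hz hh
    rw [hbot, Subgroup.mem_bot, commutatorElement_eq_one_iff_mul_comm] at h1
    exact h1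
  have hAA : ∀ a ∈ A, ∀ b ∈ A, a * b = b * a := fun a ha b hb => hA a ha b (hAH hb)
  have hYA : ∀ y ∈ Y, ∀ h ∈ H, y⁻¹ * h⁻¹ * y * h ∈ A := by
    intro y hy h hh
    have h1 : ⁅y⁻¹, h⁻¹⁆ ∈ H.lowerCentralSeries ((k - 1) + 1) :=
      Subgroup.commutator_mem_commutator (Y.inv_mem hy) (H.inv_mem hh)
    rw [Nat.sub_add_cancel hk] at h1
    simpa [commutatorElement_def] using h1
  obtain ⟨r, ι, hι, ⟨y, T0, hy, hT0, hTA, hdec⟩, hunb⟩ := coord A hAA (fg_lcsM H hfg k hbot) hinf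
  set Nh : Set G := Nb v K R with hNh
  have h1N : (1 : G) ∈ Nh := one_mem_nb v K R
  obtain ⟨T, hT⟩ := nb_reps v hsurj K H hHK hfi R
  have hTz : ∀ z ∈ H, ∃ w : List α, val v w = z ∧ w.length = len v z ∧
      ∀ p s : List α, p ++ s = w → ∃ r ∈ T, val v p * r⁻¹ ∈ H := by
    intro z hz
    obtain ⟨w, hw, hwl⟩ := len_exists v hsurj z
    have hgeo : Geo v w := by
      rw [geo_iff v hsurj, hw, hwl]
    exact ⟨w, hw, hwl, fun p s hps => hT _ (nb_geo v hsurj K R hQC w (by rw [hw]; exact hHK hz)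
      hgeo p s hps)⟩
  obtain ⟨C1, hC1⟩ := upperM v hsurj H hfg k hbot ι y T0 hy hT0 hdec
  obtain ⟨C2, hC2⟩ := lowerM v hsym hsurj H hfg T hTz k hbot ι hι
  obtain ⟨D0, hD0⟩ := fmn_up v hsym hsurj H A hA Nh T hT
  have hι1 : ι 1 = 0 := by
    have := hι 1 A.one_mem 1 A.one_mem
    simpa using this
  have hC2' : 0 ≤ max C2 0 := le_max_right _ _
  -- bounds for `fmn`
  have hf_up : ∀ z ∈ A, (fmn v Nh z : ℝ) ^ (k + 1) ≤ max C1 0 * (‖ι z‖ + 1) := by
    intro z hz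
    have h1 : (fmn v Nh z : ℝ) ≤ (len v z : ℝ) := by
      have := fmn_le v Nh z h1N
      simp only [inv_one, one_mul, mul_one] at this
      exact_mod_cast this
    calc (fmn v Nh z : ℝ) ^ (k + 1) ≤ (len v z : ℝ) ^ (k + 1) :=
          pow_le_pow_left₀ (by positivity) h1 _
      _ ≤ C1 * (‖ι z‖ + 1) := hC1 z hz
      _ ≤ max C1 0 * (‖ι z‖ + 1) := by
          apply mul_le_mul_of_nonneg_right (le_max_left _ _) (by positivity)
  have hf_low : ∀ z ∈ A, ‖ι z‖ ≤ (max C2 0 * (1 + 2 * D0) ^ (k + 1)) * (fmn v Nh z : ℝ) ^ (k + 1) := by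
    intro z hz
    by_cases h1 : z = 1
    · subst h1
      rw [hι1, norm_zero]
      positivity
    · have h2 : 1 ≤ fmn v Nh z := fmn_pos v hsurj Nh ⟨1, h1N⟩ h1
      have h3 := hD0 z hz 1 h1N
      simp only [inv_one, one_mul, mul_one] at h3
      have h4 : (len v z : ℝ) ≤ (1 + 2 * D0) * (fmn v Nh z : ℝ) := by
        have h5 : (len v z : ℝ) ≤ (fmn v Nh z : ℝ) + 2 * (D0 : ℝ) := by exact_mod_cast h3
        have h6 : (1 : ℝ) ≤ (fmn v Nh z : ℝ) := by exact_mod_cast h2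
        have h7 : (0 : ℝ) ≤ (D0 : ℝ) := by positivity
        nlinarith
      calc ‖ι z‖ ≤ C2 * (len v z : ℝ) ^ (k + 1) := hC2 z hz
        _ ≤ max C2 0 * (len v z : ℝ) ^ (k + 1) :=
            mul_le_mul_of_nonneg_right (le_max_left _ _) (by positivity)
        _ ≤ max C2 0 * ((1 + 2 * D0) * (fmn v Nh z : ℝ)) ^ (k + 1) := by
            apply mul_le_mul_of_nonneg_left _ hC2'
            exact pow_le_pow_left₀ (by positivity) h4 _
        _ = _ := by rw [mul_pow]; ring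
  -- near-maximisers
  set C3 : ℝ := max (max C1 0) (max C2 0 * (1 + 2 * D0) ^ (k + 1)) with hC3
  obtain ⟨e, Mx, he, hMx, hup, hnear⟩ := near_max (E := EuclideanSpace ℝ (Fin r)) (I := A)
    (fun z => ι z.1) (fun z => (fmn v Nh z.1 : ℝ) ^ (k + 1)) C3
    (fun z => by positivity)
    (fun z => (hf_up z.1 z.2).trans (mul_le_mul_of_nonneg_right (le_max_left _ _) (by positivity)))
    (fun z => (hf_low z.1 z.2).trans
      (mul_le_mul_of_nonneg_right (le_max_right _ _) (by positivity)))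
    (fun R => by
      obtain ⟨z, hz, hR⟩ := hunb R
      exact ⟨⟨z, hz⟩, hR⟩)
  have hup' : ∀ η : ℝ, 0 < η → ∃ C' : ℝ, ∀ z ∈ A,
      (fmn v Nh z : ℝ) ^ (k + 1) ≤ (Mx + η) * ‖ι z‖ + C' := by
    intro η hη
    obtain ⟨C', hC'⟩ := hup η hη
    exact ⟨C', fun z hz => hC' ⟨z, hz⟩⟩
  set N : ℕ := Fintype.card σ * T.card with hN
  obtain ⟨ε, η, R1, hε, hη, hη2, hR1, hnb⟩ := noBadM v hsym hsurj M hM ι H A Y hAH hA hYH hYn hYA
    hι Nh T hT D0 hD0 (fun z x hx => fmn_le v Nh z hx) e he (k + 1) Mx hMx hup' N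
  -- the functional and the subgroup
  set φ : G → ℝ := fun g => ⟪e, ι g⟫_ℝ with hφdef
  have hφ : ∀ a ∈ A, ∀ b ∈ A, φ (a * b) = φ a + φ b := by
    intro a ha b hb
    simp only [hφdef]
    rw [hι a ha b hb, inner_add_right]
  obtain ⟨S, hS, hSH, hAS⟩ := gamM H A Y hAH hA hYH hYn hYA φ hφ
  have hSleH : S ≤ H := fun g hg => ((hS g).1 hg).1
  -- constants of the chain
  obtain ⟨J, hJ⟩ : ∃ J : ℕ, 2 / ε + 1 ≤ (J : ℝ) := exists_nat_ge _
  obtain ⟨Dr, hDr⟩ : ∃ Dr : ℕ, ∀ t ∈ T, len v t ≤ Dr :=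
    ⟨T.sup (len v), fun t ht => Finset.le_sup ht⟩
  set Bd : ℕ := 2 * Dr + 2 * (J * N) + 1 with hBd
  have hXfin : {x : G | x ∈ S ∧ len v x ≤ Bd}.Finite :=
    (ball_finite v hsurj Bd).subset (fun x hx => hx.2)
  obtain ⟨C4, hC4⟩ := dbound_sub S A hAS (fun a ha h hh => hA a ha h (hSleH hh)) φ hφ k hk
    (fun a _ ha => gam_lcs H S hSleH k hk φ hφ (fun y hy g hg => ((hS g).1 hg).2 y hy) a ha)
    {x : G | x ∈ S ∧ len v x ≤ Bd} hXfin (fun x hx => hx.1)
  -- the final inequality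
  obtain ⟨R2, hR2, hineq⟩ := ineq2 k (max C1 0) C4
  -- make the length large
  obtain ⟨R3, hR3⟩ : ∃ R3 : ℝ, ∀ z ∈ A, R3 ≤ ‖ι z‖ → 2 / ε + R ≤ (fmn v Nh z : ℝ) := by
    refine ⟨(max C2 0 * (1 + 2 * D0) ^ (k + 1)) * (2 / ε + R) ^ (k + 1) + 1, fun z hz h1 => ?_⟩
    by_contra h2
    push Not at h2
    have h3 := hf_low z hz
    have h4 : (fmn v Nh z : ℝ) ^ (k + 1) ≤ (2 / ε + R) ^ (k + 1) :=
      pow_le_pow_left₀ (by positivity) h2.le _
    have h5 : (max C2 0 * (1 + 2 * (D0 : ℝ)) ^ (k + 1)) * (fmn v Nh z : ℝ) ^ (k + 1) ≤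
        (max C2 0 * (1 + 2 * (D0 : ℝ)) ^ (k + 1)) * (2 / ε + R) ^ (k + 1) :=
      mul_le_mul_of_nonneg_left h4 (by positivity)
    linarith
  obtain ⟨⟨z, hz⟩, hzR, hzM, hze⟩ := hnear η hη (max R1 (max R2 R3))
  simp only at hzR hzM hze
  have hzR1 : R1 ≤ ‖ι z‖ := (le_max_left _ _).trans hzR
  have hzR2 : R2 ≤ ‖ι z‖ := ((le_max_left _ _).trans (le_max_right _ _)).trans hzR
  have hzR3 : R3 ≤ ‖ι z‖ := ((le_max_right _ _).trans (le_max_right _ _)).trans hzR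
  have hlong := hR3 z hz hzR3
  have hε2 : 0 ≤ 2 / ε := by positivity
  have hRf : R ≤ fmn v Nh z := by
    have : (R : ℝ) ≤ (fmn v Nh z : ℝ) := by linarith
    exact_mod_cast this
  -- the tube
  obtain ⟨x₀, hx₀, w, hw0, hwf, htube⟩ := tube v hsym hsurj K R hQC z (hHK (hAH hz)) hRf
  obtain ⟨g, hgT, hgH⟩ := hT x₀ hx₀
  have hgz : g⁻¹ * z * g = x₀⁻¹ * z * x₀ := by
    have h1 := hA z hz _ hgH
    calc g⁻¹ * z * g = x₀⁻¹ * ((x₀ * g⁻¹) * z) * g := by group
      _ = x₀⁻¹ * (z * (x₀ * g⁻¹)) * g := by rw [h1]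
      _ = x₀⁻¹ * z * x₀ := by group
  have hw : val v w = g⁻¹ * z * g := by rw [hw0, hgz]
  have htube' : ∀ p s : List α, p ++ s = w → g * val v p ∈ Nh := by
    intro p s hps
    have h1 := nb_left v K R (K.inv_mem (hHK hgH)) (htube p s hps)
    have h2 : (x₀ * g⁻¹)⁻¹ * (x₀ * val v p) = g * val v p := by group
    rwa [h2] at h1
  set m : ℕ := ⌊ε * (w.length : ℝ)⌋₊ with hm
  have hmle : (m : ℝ) ≤ ε * (w.length : ℝ) := Nat.floor_le (by positivity)
  have hwlarge : 2 / ε ≤ (w.length : ℝ) := by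
    rw [hwf]
    have : (0 : ℝ) ≤ (R : ℝ) := Nat.cast_nonneg _
    linarith
  have hεw : 2 ≤ ε * (w.length : ℝ) := by
    rw [div_le_iff₀ hε] at hwlarge
    linarith
  have hmge : ε * (w.length : ℝ) / 2 ≤ (m : ℝ) := by
    have := Nat.lt_floor_add_one (ε * (w.length : ℝ))
    rw [← hm] at this
    linarith
  have hJm : w.length ≤ J * m := by
    have h1 : (w.length : ℝ) ≤ (J : ℝ) * (m : ℝ) := by
      have h2 : 2 / ε * (ε * (w.length : ℝ) / 2) = (w.length : ℝ) := by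
        field_simp
      calc (w.length : ℝ) = 2 / ε * (ε * (w.length : ℝ) / 2) := h2.symm
        _ ≤ (J : ℝ) * (m : ℝ) := by
            apply mul_le_mul _ hmge (by positivity) (by positivity)
            linarith
    exact_mod_cast h1
  obtain ⟨l, hl1, hl2, hl3⟩ := chainM v hsym hsurj M H S hSleH hSH T N le_rfl g z (hAS hz) w hw m J
    hJm (fun p s hps => hT _ (htube' p s hps)) (by
    intro w1 a w3 hww ha u hu hloop huH
    refine (hS _).2 ⟨huH, fun y hy => ?_⟩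
    refine hnb z hz hzR1 hzM hze g w1 a w3 (by rw [hww]; exact hw) (by rw [hww]; exact hwf)
      (htube' w1 (a ++ w3) (by rw [← hww]; simp)) ?_ ?_ u _ hu hloop rfl huH y hy
    · have h1 := htube' (w1 ++ a) w3 hww
      rwa [val_append, ← mul_assoc] at h1
    · rw [hww]
      exact le_trans (by exact_mod_cast ha) hmle)
  have h1 := hC4 (w.length + 1) (by omega) l (by omega) (by
    intro x hx
    refine ⟨(hl3 x hx).1, (hl3 x hx).2.trans ?_⟩
    have := hDr g hgT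
    rw [hBd]
    omega) (by rw [hl2]; exact hz)
  rw [hl2] at h1
  have h2 : (1 - η) * ‖ι z‖ ≤ φ z := by
    have h3 : φ z = ‖ι z‖ + ⟪e, ι z - ‖ι z‖ • e⟫_ℝ := by
      simp only [hφdef]
      rw [inner_sub_right, inner_smul_right, real_inner_self_eq_norm_sq, he]
      ring
    have h4 : |⟪e, ι z - ‖ι z‖ • e⟫_ℝ| ≤ η * ‖ι z‖ := by
      refine (abs_real_inner_le_norm _ _).trans ?_
      rw [he, one_mul]
      exact hze
    have h5 := neg_abs_le (⟪e, ι z - ‖ι z‖ • e⟫_ℝ)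
    rw [h3]
    linarith
  refine hineq ‖ι z‖ (w.length : ℝ) hzR2 ?_ (by positivity) ?_
  · rw [hwf]
    exact hf_up z hz
  · have h3 : ‖ι z‖ / 2 ≤ (1 - η) * ‖ι z‖ := by
      have : 0 ≤ ‖ι z‖ := norm_nonneg _
      nlinarith
    calc ‖ι z‖ / 2 ≤ φ z := h3.trans h2
      _ ≤ |φ z| := le_abs_self _
      _ ≤ C4 * ((w.length + 1 : ℕ) : ℝ) ^ k := h1
      _ = C4 * ((w.length : ℝ) + 1) ^ k := by push_cast; ring

/-- A virtually nilpotent Morse subgroup of a group with regular geodesics is virtually abelian. -/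
theorem mainM [Finite α] (v : α → G) (hsym : ∀ a, ∃ b, v b = (v a)⁻¹)
    (hsurj : ∀ g, ∃ w, val v w = g) {σ : Type*} [Fintype σ] (M : DFA α σ)
    (hM : ∀ w, M.eval w ∈ M.accept ↔ Geo v w) (K : Subgroup G)
    (hvn : Group.IsVirtuallyNilpotent ↥K) (R : ℕ) (hQC : QC v K R) :
    ∃ A : Subgroup ↥K, A.FiniteIndex ∧ ∀ a ∈ A, ∀ b ∈ A, a * b = b * a := by
  rcases setupM K (nb_fg v hsym hsurj K R hQC) hvn with h | ⟨H, k, hHK, hfi, hHfg, hk, hbot, hinf⟩
  · exact h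
  · exact (contraM v hsym hsurj M hM K R hQC H hHK hfi hHfg k hk hbot hinf).elim

end Pool.Agent.MorseGeo
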